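import Pool.Agent.Y933.KH.Riesz

/-!
# Geometric progressions of multipliers have no small relations (helper933)
-/

set_option autoImplicit false

namespace Pool.Agent.Y933.KH

open Finset Real

lemma geo_lt {H : ℕ} {r : ℝ} (hr : (H : ℝ) + 1 ≤ r) (n : ℕ) :
    (H : ℝ) * ∑ i ∈ range n, r ^ i < r ^ n := by
  have hH : (0 : ℝ) ≤ H := Nat.cast_nonneg H
  have hr0 : 0 < r := by linarith
  induction n with
  | zero => simp
  | succ n ih =>
    rw [sum_range_succ, mul_add, pow_succ]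
    have h1 : 0 < r ^ n := by positivity
    nlinarith

lemma geo_zero {H : ℕ} {r : ℝ} (hr : (H : ℝ) + 1 ≤ r) : ∀ (n : ℕ) (h : ℕ → ℤ),
    (∀ i, |h i| ≤ H) → ∑ i ∈ range n, (h i : ℝ) * r ^ i = 0 → ∀ i < n, h i = 0 := by
  have hH : (0 : ℝ) ≤ H := Nat.cast_nonneg H
  have hr0 : 0 < r := by linarith
  intro n
  induction n with
  | zero => intro h _ _ i hi; omega
  | succ n ih =>
    intro h hh h0 i hi
    have hn : h n = 0 := by
      rw [sum_range_succ] at h0
      have h1 : |(h n : ℝ) * r ^ n| ≤ (H : ℝ) * ∑ i ∈ range n, r ^ i := by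
        have h2 : (h n : ℝ) * r ^ n = -∑ i ∈ range n, (h i : ℝ) * r ^ i := by linarith
        rw [h2, abs_neg, mul_sum]
        refine (abs_sum_le_sum_abs _ _).trans (sum_le_sum fun i _ => ?_)
        rw [abs_mul, abs_of_pos (by positivity : (0 : ℝ) < r ^ i)]
        have h3 : |(h i : ℝ)| ≤ H := by exact_mod_cast hh i
        gcongr
      have h2 := geo_lt hr n
      rw [abs_mul, abs_of_pos (by positivity : (0 : ℝ) < r ^ n)] at h1
      have h3 : |(h n : ℝ)| < 1 := by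
        by_contra hcon
        push Not at hcon
        have h4 : 0 < r ^ n := by positivity
        nlinarith
      have h4 : |h n| < 1 := by exact_mod_cast h3
      exact Int.abs_lt_one_iff.1 h4
    rcases Nat.lt_succ_iff_lt_or_eq.1 hi with h1 | h1
    · rw [sum_range_succ, hn, Int.cast_zero, zero_mul, add_zero] at h0
      exact ih h hh h0 i h1
    · rw [h1]; exact hn

lemma geo_zero' {H : ℕ} {r : ℝ} (hr0 : 0 < r) (hr : ((H : ℝ) + 1) * r ≤ 1) (n : ℕ) (h : ℕ → ℤ)
    (hh : ∀ i, |h i| ≤ H) (h0 : ∑ i ∈ range n, (h i : ℝ) * r ^ i = 0) : ∀ i < n, h i = 0 := by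
  intro i hi
  have h1 := geo_zero (H := H) (r := 1 / r) (by rw [le_div_iff₀ hr0]; exact hr) n
    (fun j => h (n - 1 - j)) (fun j => hh _) (by
      rw [← sum_range_reflect]
      have h2 : ∀ j ∈ range n, ((h (n - 1 - (n - 1 - j)) : ℤ) : ℝ) * (1 / r) ^ (n - 1 - j) =
          (1 / r) ^ (n - 1) * ((h j : ℝ) * r ^ j) := by
        intro j hj
        have hj := mem_range.1 hj
        rw [show n - 1 - (n - 1 - j) = j by omega]
        have h3 : (1 / r) ^ (n - 1) = (1 / r) ^ (n - 1 - j) * (1 / r) ^ j := by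
          rw [← pow_add]; congr 1; omega
        have h4 : (1 / r) ^ j * r ^ j = 1 := by
          rw [← mul_pow, one_div_mul_cancel hr0.ne', one_pow]
        rw [h3]
        calc (h j : ℝ) * (1 / r) ^ (n - 1 - j) = (h j : ℝ) * (1 / r) ^ (n - 1 - j) * 1 := by ring
          _ = (h j : ℝ) * (1 / r) ^ (n - 1 - j) * ((1 / r) ^ j * r ^ j) := by rw [h4]
          _ = _ := by ring
      rw [sum_congr rfl h2, ← mul_sum, h0, mul_zero]) (n - 1 - i) (by omega)
  rw [show n - 1 - (n - 1 - i) = i by omega] at h1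
  exact h1

theorem norel_geo {H m : ℕ} {r a : ℝ} (ha : a ≠ 0) (hr0 : 0 < r)
    (hr : (H : ℝ) + 1 ≤ r ∨ ((H : ℝ) + 1) * r ≤ 1) (q : Fin m → ℤ)
    (hq : ∀ i : Fin m, ((q i : ℤ) : ℝ) = a * r ^ (i : ℕ)) : NoRel H q := by
  intro h hh h0
  set h' : ℕ → ℤ := fun i => if hi : i < m then h ⟨i, hi⟩ else 0 with hh'
  have h1 : ∀ i, |h' i| ≤ H := by
    intro i
    rw [hh']
    simp only
    split_ifs with hi
    · exact hh _
    · simp
  have h2 : ∑ i ∈ range m, (h' i : ℝ) * r ^ i = 0 := by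
    have h3 : ∑ i : Fin m, (h i : ℝ) * (q i : ℝ) = 0 := by exact_mod_cast h0
    have h4 : ∑ i ∈ range m, (h' i : ℝ) * r ^ i = ∑ i : Fin m, (h' i : ℝ) * r ^ (i : ℕ) :=
      (Fin.sum_univ_eq_sum_range (fun i => (h' i : ℝ) * r ^ i) m).symm
    rw [h4]
    have h5 : ∀ i : Fin m, (h' i : ℝ) * r ^ (i : ℕ) = (1 / a) * ((h i : ℝ) * (q i : ℝ)) := by
      intro i
      rw [hq i, hh']
      simp only
      rw [dif_pos i.2]
      field_simp
    rw [sum_congr rfl fun i _ => h5 i, ← mul_sum, h3, mul_zero]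
  have h3 : ∀ i < m, h' i = 0 := by
    rcases hr with h4 | h4
    · exact geo_zero h4 m h' h1 h2
    · exact geo_zero' hr0 h4 m h' h1 h2
  funext i
  have h4 := h3 i i.2
  rw [hh'] at h4
  simp only at h4
  rw [dif_pos i.2] at h4
  exact h4

/-- the ratio in the direction `(a, b)` -/
noncomputable def rho (a : ℕ) (b : ℤ) : ℝ := (6 : ℝ) ^ b * (3 / 2) ^ a

lemma rho_pos (a : ℕ) (b : ℤ) : 0 < rho a b := by unfold rho; positivity

lemma rho_ne {a : ℕ} {b : ℤ} (h : a ≠ 0 ∨ b ≠ 0) : rho a b ≠ 1 := by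
  intro h1
  unfold rho at h1
  obtain ⟨D, hD⟩ : ∃ D : ℕ, 0 ≤ b + D := ⟨b.natAbs, by omega⟩
  obtain ⟨x, hx⟩ := Int.eq_ofNat_of_zero_le hD
  have hb : b = x - D := by omega
  rw [hb, zpow_sub₀ (by norm_num), zpow_natCast, zpow_natCast, div_pow] at h1
  have h2 : (6 : ℝ) ^ x * 3 ^ a = 6 ^ D * 2 ^ a := by
    field_simp at h1
    linarith
  have h3 : 6 ^ x * 3 ^ a = 6 ^ D * 2 ^ a := by exact_mod_cast h2
  have e6 : 6 = 2 * 3 := rfl
  rw [e6, mul_pow, mul_pow] at h3
  have p2 : Fact (Nat.Prime 2) := ⟨Nat.prime_two⟩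
  have p3 : Fact (Nat.Prime 3) := ⟨Nat.prime_three⟩
  have n23 : padicValNat 2 3 = 0 := padicValNat_primes (by norm_num)
  have n32 : padicValNat 3 2 = 0 := padicValNat_primes (by norm_num)
  have h4 := congrArg (padicValNat 2) h3
  have h5 := congrArg (padicValNat 3) h3
  rw [padicValNat.mul (by positivity) (by positivity), padicValNat.mul (by positivity) (by positivity),
    padicValNat.mul (by positivity) (by positivity), padicValNat.mul (by positivity) (by positivity)]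
    at h4 h5
  simp only [padicValNat.pow,
    n23, n32, padicValNat_self, mul_one, mul_zero,
    add_zero, zero_add] at h4 h5
  rcases h with h | h
  · apply h; omega
  · apply h; omega

/-- one gap for all directions -/
lemma exists_gap (D H : ℕ) : ∃ g : ℕ, 1 ≤ g ∧ ∀ (a : ℕ) (b : ℤ), a ≤ D → |b| ≤ D → (a ≠ 0 ∨ b ≠ 0) →
    ((H : ℝ) + 1 ≤ rho a b ^ g ∨ ((H : ℝ) + 1) * rho a b ^ g ≤ 1) := by
  have h1 : ∀ p ∈ (range (D + 1)) ×ˢ (Finset.Icc (-(D : ℤ)) D), ∀ᶠ g : ℕ in Filter.atTop,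
      ((p.1 ≠ 0 ∨ p.2 ≠ 0) → ((H : ℝ) + 1 ≤ rho p.1 p.2 ^ g ∨ ((H : ℝ) + 1) * rho p.1 p.2 ^ g ≤ 1)) := by
    rintro ⟨a, b⟩ _
    by_cases hab : a ≠ 0 ∨ b ≠ 0
    · have h2 := rho_ne hab
      have h3 := rho_pos a b
      rcases lt_or_gt_of_ne h2 with h4 | h4
      · have h5 := tendsto_pow_atTop_nhds_zero_of_lt_one h3.le h4
        have h6 : (0 : ℝ) < 1 / ((H : ℝ) + 1) := by positivity
        filter_upwards [h5.eventually_lt_const h6] with g hg _
        right
        have h7 : (0 : ℝ) < (H : ℝ) + 1 := by positivity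
        rw [lt_div_iff₀ h7] at hg
        linarith
      · have h5 := tendsto_pow_atTop_atTop_of_one_lt h4
        filter_upwards [h5.eventually_ge_atTop ((H : ℝ) + 1)] with g hg _
        left
        exact hg
    · filter_upwards with g hg
      exact absurd hg hab
  have h2 := (Filter.eventually_all_finset _).2 h1
  obtain ⟨g, hg1, hg2⟩ := (h2.and (Filter.eventually_ge_atTop 1)).exists
  refine ⟨g, hg2, fun a b ha hb hab => ?_⟩
  have hb' := abs_le.1 hb
  exact hg1 (a, b) (by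
    rw [mem_product, mem_range, Finset.mem_Icc]
    exact ⟨by simp only; omega, hb'⟩) hab

end Pool.Agent.Y933.KH
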