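import Pool.Agent.Y933.KH.Val
import Pool.Agent.Y933.KH.Line

/-!
# Frequencies of space-time patterns along lines: the Bernoulli measure (helper933)
-/

set_option autoImplicit false

namespace Pool.Agent.Y933.KH

open Finset MeasureTheory Real
open Pool.Agent.H429R2.Auto
open Pool.Agent.Y933.KD (Leb)

/-- the pattern `w` stands at the cell `(n, i)` of the space-time diagram of `x` -/
def Occ {D : ℕ} (w : Fin D → Fin D → Fin 6) (n : ℕ) (i : ℤ) (x : Conf) : Prop :=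
  ∀ a b : Fin D, F^[n + a] x (i + b) = w a b

/-- the shift -/
def shL (l : ℤ) (x : Conf) : Conf := fun i => x (i + l)

lemma F_shL (l : ℤ) (x : Conf) : F (shL l x) = shL l (F x) := by
  funext i
  show f (f (x (i - 1 + l)) (x (i + 1 - 1 + l))) (f (x (i + 1 - 1 + l)) (x (i + 1 + 1 - 1 + l))) =
    f (f (x (i + l - 1)) (x (i + l + 1 - 1))) (f (x (i + l + 1 - 1)) (x (i + l + 1 + 1 - 1)))
  rw [show i - 1 + l = i + l - 1 by ring, show i + 1 - 1 + l = i + l + 1 - 1 by ring,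
    show i + 1 + 1 - 1 + l = i + l + 1 + 1 - 1 by ring]

lemma iter_shL (n : ℕ) (l : ℤ) (x : Conf) : F^[n] (shL l x) = shL l (F^[n] x) := by
  induction n with
  | zero => rfl
  | succ n ih => rw [Function.iterate_succ_apply', ih, F_shL, Function.iterate_succ_apply']

lemma rd_shL (s : ℤ) (T : ℕ) (l : ℤ) (x : Conf) : rd s T (shL l x) = rd (s + l) T x := by
  unfold rd shL
  refine sum_congr rfl fun r _ => ?_
  rw [show s + T - r + l = s + l + T - r by ring]

open Classical in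
/-- the codes of the rows which show the pattern -/
noncomputable def VV {D : ℕ} (w : Fin D → Fin D → Fin 6) : Finset ℕ :=
  (range (6 ^ (3 * D))).filter (fun c => ∃ x : Conf, rd (-D - 1) (3 * D) x = c ∧ Occ w 0 0 x)

lemma occ_local {D : ℕ} {w : Fin D → Fin D → Fin 6} {x x' : Conf}
    (h : rd (-D - 1) (3 * D) x = rd (-D - 1) (3 * D) x') (ho : Occ w 0 0 x) : Occ w 0 0 x' := by
  intro a b
  rw [← ho a b]
  have ha := a.2
  have hb := b.2
  symm
  refine iter_local (0 + a) (a := 0 + b) (b := 0 + b) (fun l hl1 hl2 => ?_) _ le_rfl le_rfl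
  push_cast at hl1 hl2
  have h2 := (agree_wr (-D - 1) (3 * D) _ (rd_lt _ _ _) x).2 h l
    (by omega) (by push_cast; omega)
  have h3 := (agree_wr (-D - 1) (3 * D) _ (rd_lt _ _ _) x').2 rfl l
    (by omega) (by push_cast; omega)
  rw [h2, h3]

lemma occ_shL {D : ℕ} (w : Fin D → Fin D → Fin 6) (n : ℕ) (i : ℤ) (x : Conf) :
    Occ w n i x ↔ Occ w 0 0 (shL i (F^[n] x)) := by
  unfold Occ
  refine forall_congr' fun a => forall_congr' fun b => ?_
  rw [zero_add, iter_shL, ← Function.iterate_add_apply, add_comm (a : ℕ) n]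
  unfold shL
  rw [show (0 : ℤ) + b + i = i + b by ring]

lemma occ_iff {D : ℕ} (w : Fin D → Fin D → Fin 6) (n : ℕ) (i : ℤ) (x : Conf) :
    Occ w n i x ↔ rd (i - D - 1) (3 * D) (F^[n] x) ∈ VV w := by
  classical
  rw [occ_shL]
  have h1 : rd (i - D - 1) (3 * D) (F^[n] x) = rd (-D - 1) (3 * D) (shL i (F^[n] x)) := by
    rw [rd_shL]
    congr 1
    ring
  rw [h1]
  unfold VV
  rw [mem_filter, mem_range]
  constructor
  · intro h
    exact ⟨rd_lt _ _ _, _, rfl, h⟩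
  · rintro ⟨_, x', h2, h3⟩
    exact occ_local h2 h3

/-- the frequency of a pattern -/
noncomputable def frq {D : ℕ} (w : Fin D → Fin D → Fin 6) : ℝ := bern.real {x | Occ w 0 0 x}

lemma frq_val {D : ℕ} (w : Fin D → Fin D → Fin 6) : frq w = ((VV w).card : ℝ) / 6 ^ (3 * D) := by
  classical
  have hdep : DepOn (-D - 1) (3 * D) {x | Occ w 0 0 x} := by
    intro x x' h
    have h1 : rd (-D - 1) (3 * D) x = rd (-D - 1) (3 * D) x' := by
      rw [← agree_wr (-D - 1) (3 * D) _ (rd_lt _ _ _)]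
      intro l h2 h3
      rw [h l h2 h3]
      exact (agree_wr (-D - 1) (3 * D) _ (rd_lt _ _ _) x').2 rfl l h2 h3
    exact ⟨occ_local h1, occ_local h1.symm⟩
  unfold frq
  rw [bern_dep hdep]
  congr 3
  unfold VV
  refine filter_congr fun W hW => ?_
  have hW' := mem_range.1 hW
  have h1 : rd (-D - 1) (3 * D) (wr (-D - 1) (3 * D) W) = W :=
    (agree_wr (-D - 1) (3 * D) W hW' _).1 fun _ _ _ => rfl
  constructor
  · intro h
    exact ⟨_, h1, h⟩
  · rintro ⟨x, h2, h3⟩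
    exact occ_local (h2.trans h1.symm) h3

lemma VV_lt {D : ℕ} (w : Fin D → Fin D → Fin 6) : ∀ c ∈ VV w, c < 6 ^ (3 * D) := by
  classical
  intro c hc
  unfold VV at hc
  exact mem_range.1 (mem_filter.1 hc).1

/-- the multiplier -/
def qd (n : ℕ) (l : ℤ) : ℤ := 3 ^ (l + n).toNat * 2 ^ (l - n).toNat

lemma qd_val {n : ℕ} {l : ℤ} (h : (n : ℤ) ≤ l) : ((qd n l : ℤ) : ℝ) = (6 : ℝ) ^ l * (3 / 2) ^ n := by
  unfold qd
  push_cast
  have e1 : ((3 : ℝ) ^ (l + n).toNat) = (3 : ℝ) ^ (l + n : ℤ) := by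
    rw [← zpow_natCast, Int.toNat_of_nonneg (by omega)]
  have e2 : ((2 : ℝ) ^ (l - n).toNat) = (2 : ℝ) ^ (l - n : ℤ) := by
    rw [← zpow_natCast, Int.toNat_of_nonneg (by omega)]
  rw [e1, e2, zpow_add₀ (by norm_num), zpow_sub₀ (by norm_num), zpow_natCast, zpow_natCast]
  have e3 : (6 : ℝ) = 3 * 2 := by norm_num
  rw [e3, mul_zpow, div_pow]
  field_simp

lemma rd_floor {β : ℝ} (hβ : 0 ≤ β) {x : Conf} (h : Rep x β) (s : ℤ) (M : ℕ) :
    rd s M x = ⌊(6 : ℝ) ^ M * Int.fract ((6 : ℝ) ^ s * β)⌋₊ := by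
  have h6 : (0 : ℝ) < (6 : ℝ) ^ M := by positivity
  have h0 : 0 ≤ (6 : ℝ) ^ M * Int.fract ((6 : ℝ) ^ s * β) :=
    mul_nonneg h6.le (Int.fract_nonneg _)
  have h1 : ⌊(6 : ℝ) ^ M * Int.fract ((6 : ℝ) ^ s * β)⌋₊ < 6 ^ M := by
    rw [Nat.floor_lt h0]
    push_cast
    have := Int.fract_lt_one ((6 : ℝ) ^ s * β)
    nlinarith
  rw [rd_rep hβ h s M _ h1, div_le_iff₀ h6, lt_div_iff₀ h6, mul_comm (Int.fract _)]
  exact ⟨Nat.floor_le h0, Nat.lt_floor_add_one _⟩

/-- an occurrence, in terms of the indicator function -/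
lemma gi_occ {D : ℕ} (w : Fin D → Fin D → Fin 6) {z : ℝ} (hz : 0 ≤ z) (s0 : ℤ) (n : ℕ) (i : ℤ)
    (h : (n : ℤ) ≤ i - D - 1 - s0) [Decidable (Occ w n i (dg (z * 6 ^ (-s0))))] :
    gi (3 * D) (VV w) (qd n (i - D - 1 - s0) * z) =
      if Occ w n i (dg (z * 6 ^ (-s0))) then 1 else 0 := by
  have hβ : 0 ≤ z * (6 : ℝ) ^ (-s0) := by positivity
  have h1 := occ_iff w n i (dg (z * 6 ^ (-s0)))
  rw [rd_floor (by positivity) (rep_iter hβ (rep_dg _) n)] at h1
  have e1 : (6 : ℝ) ^ (i - D - 1) * ((3 / 2) ^ n * (z * 6 ^ (-s0))) = qd n (i - D - 1 - s0) * z := by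
    rw [qd_val h, zpow_sub₀ (by norm_num) (i - D - 1) s0, zpow_neg]
    ring
  rw [e1] at h1
  rw [gi_val]
  by_cases h2 : Occ w n i (dg (z * 6 ^ (-s0)))
  · rw [if_pos h2, if_pos (h1.1 h2)]
  · rw [if_neg h2, if_neg fun h3 => h2 (h1.2 h3)]

lemma sum_res {g : ℕ} (m : ℕ) (f : ℕ → ℝ) :
    ∑ t ∈ range (g * m), f t = ∑ r ∈ range g, ∑ j ∈ range m, f (r + g * j) := by
  induction m with
  | zero => simp
  | succ m ih =>
    rw [Nat.mul_succ, sum_range_add, ih]
    simp only [sum_range_succ]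
    rw [sum_add_distrib]
    congr 1
    exact sum_congr rfl fun r _ => by rw [add_comm]

lemma NoRel.mono {m H H' : ℕ} (h : H' ≤ H) {q : Fin m → ℤ} (hq : NoRel H q) : NoRel H' q := by
  intro l hl h0
  refine hq l (fun i => (hl i).trans ?_) h0
  exact_mod_cast h

open Classical in
/-- the number of occurrences along a line -/
noncomputable def cnt {D : ℕ} (w : Fin D → Fin D → Fin 6) (n : ℕ) (i : ℤ) (a : ℕ) (b : ℤ) (T : ℕ)
    (x : Conf) : ℕ := ((range T).filter (fun t => Occ w (n + t * a) (i + t * b) x)).card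

lemma gi_compl (M : ℕ) (V : Finset ℕ) (hV : ∀ c ∈ V, c < 6 ^ M) (x : ℝ) :
    gi M (range (6 ^ M) \ V) x = 1 - gi M V x := by
  have h6 : (0 : ℝ) < (6 : ℝ) ^ M := by positivity
  rw [gi_val, gi_val]
  have h1 : ⌊(6 : ℝ) ^ M * Int.fract x⌋₊ < 6 ^ M := by
    rw [Nat.floor_lt (mul_nonneg h6.le (Int.fract_nonneg _))]
    push_cast
    have := Int.fract_lt_one x
    nlinarith
  by_cases h2 : ⌊(6 : ℝ) ^ M * Int.fract x⌋₊ ∈ V
  · rw [if_pos h2, if_neg]
    · ring
    · intro h3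
      exact (mem_sdiff.1 h3).2 h2
  · rw [if_neg h2, if_pos (mem_sdiff.2 ⟨mem_range.2 h1, h2⟩)]
    ring

/-- **large deviations for the Bernoulli measure** -/
theorem bern_ld (D : ℕ) (ε : ℝ) (hε : 0 < ε) (hε1 : ε ≤ 1) : ∃ g : ℕ, 1 ≤ g ∧
    ∀ (w : Fin D → Fin D → Fin 6) (a : ℕ) (b : ℤ), a ≤ D → |b| ≤ D → (a ≠ 0 ∨ b ≠ 0) →
    ∀ (n : ℕ) (i : ℤ) (m : ℕ),
      bern.real {x | ε * (g * m) < |(cnt w n i a b (g * m) x : ℝ) - g * m * frq w|} ≤
        2 * g * exp (-(ε ^ 2 / 16 * m)) := by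
  classical
  -- a common degree
  have hld : ∀ V : Finset ℕ, ∃ H : ℕ, 1 ≤ H ∧ ((∀ c ∈ V, c < 6 ^ (3 * D)) → ∀ (m : ℕ) (q : Fin m → ℤ),
      NoRel H q → Leb.real {x | m * ((V.card : ℝ) / 6 ^ (3 * D) + ε) ≤ ∑ i, gi (3 * D) V (q i * x)} ≤
        exp (-(ε ^ 2 / 16 * m))) := by
    intro V
    by_cases hV : ∀ c ∈ V, c < 6 ^ (3 * D)
    · obtain ⟨H, hH, h⟩ := ld (3 * D) V hV ε hε hε1
      exact ⟨H, hH, fun _ => h⟩
    · exact ⟨1, le_rfl, fun h => absurd h hV⟩
  choose Hf hHf hld using hld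
  obtain ⟨H, hH⟩ : ∃ H : ℕ, H = ((range (6 ^ (3 * D))).powerset).sup Hf := ⟨_, rfl⟩
  have hHle : ∀ V : Finset ℕ, V ⊆ range (6 ^ (3 * D)) → Hf V ≤ H := by
    intro V hV
    rw [hH]
    exact Finset.le_sup (f := Hf) (mem_powerset.2 hV)
  obtain ⟨g, hg, hgap⟩ := exists_gap D H
  refine ⟨g, hg, fun w a b ha hb hab n i m => ?_⟩
  set M : ℕ := 3 * D with hM
  set V : Finset ℕ := VV w with hV
  have hVlt := VV_lt w
  have hVsub : V ⊆ range (6 ^ M) := fun c hc => mem_range.2 (hVlt c hc)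
  set f0 : ℝ := frq w with hf0
  have hf0v : f0 = (V.card : ℝ) / 6 ^ M := frq_val w
  obtain ⟨s0, hs0⟩ : ∃ s0 : ℤ, s0 = i - 2 * (D * (g * m)) - D - 1 - n := ⟨_, rfl⟩
  have hbd : ∀ t : ℕ, t < g * m → (t : ℤ) * a ≤ D * (g * m) ∧ -((D : ℤ) * (g * m)) ≤ t * b ∧
      (t : ℤ) * b ≤ D * (g * m) := by
    intro t ht
    have h1 : (t : ℤ) ≤ g * m := by exact_mod_cast ht.le
    have h0 : (0 : ℤ) ≤ t := by omega
    have h2 : (a : ℤ) ≤ D := by exact_mod_cast ha
    obtain ⟨h3, h4⟩ := abs_le.1 hb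
    have hD : (0 : ℤ) ≤ D := by omega
    refine ⟨?_, ?_, ?_⟩
    · calc (t : ℤ) * a ≤ (g * m) * D := by
            apply mul_le_mul h1 h2 (by omega) (by positivity)
        _ = D * (g * m) := by ring
    · have : (t : ℤ) * (-b) ≤ (g * m) * D := by
        calc (t : ℤ) * (-b) ≤ t * D := by
              apply mul_le_mul_of_nonneg_left (by linarith) h0
          _ ≤ (g * m) * D := mul_le_mul_of_nonneg_right h1 hD
      linarith
    · calc (t : ℤ) * b ≤ t * D := mul_le_mul_of_nonneg_left h4 h0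
        _ ≤ (g * m) * D := mul_le_mul_of_nonneg_right h1 hD
        _ = D * (g * m) := by ring
  have hlev : ∀ t : ℕ, t < g * m → ((n + t * a : ℕ) : ℤ) ≤ (i + t * b) - D - 1 - s0 := by
    intro t ht
    obtain ⟨h1, h2, h3⟩ := hbd t ht
    rw [hs0]
    push_cast
    linarith
  -- the multipliers
  set Q : ℕ → ℤ := fun t => qd (n + t * a) ((i + t * b) - D - 1 - s0) with hQ
  have hQv : ∀ t : ℕ, t < g * m → ((Q t : ℤ) : ℝ) =
      ((6 : ℝ) ^ (i - D - 1 - s0) * (3 / 2) ^ n) * rho a b ^ t := by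
    intro t ht
    rw [hQ]
    simp only
    rw [qd_val (hlev t ht)]
    unfold rho
    rw [show (i + t * b) - D - 1 - s0 = (i - D - 1 - s0) + b * t by ring, zpow_add₀ (by norm_num),
      zpow_mul, zpow_natCast, pow_add, mul_comm t a, pow_mul, mul_pow]
    ring
  obtain ⟨B, hB⟩ : ∃ B : Set Conf, B = {x | ε * (g * m) < |(cnt w n i a b (g * m) x : ℝ) -
    g * m * frq w|} := ⟨_, rfl⟩
  obtain ⟨T, hT⟩ : ∃ T : ℕ, T = 4 * (D * (g * m)) + 3 * D + 2 * n + 1 := ⟨_, rfl⟩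
  have hdep : DepOn s0 T B := by
    intro x x' hxx
    have h1 : cnt w n i a b (g * m) x = cnt w n i a b (g * m) x' := by
      unfold cnt
      congr 1
      refine filter_congr fun t ht => ?_
      obtain ⟨h1, h2, h3⟩ := hbd t (mem_range.1 ht)
      unfold Occ
      refine forall_congr' fun a' => forall_congr' fun b' => ?_
      have ha' := a'.2
      have hb' := b'.2
      have h4 : F^[n + t * a + a'] x (i + t * b + b') = F^[n + t * a + a'] x' (i + t * b + b') := by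
        refine iter_local (n + t * a + a') (a := i + t * b + b') (b := i + t * b + b')
          (fun l hl1 hl2 => ?_) _ le_rfl le_rfl
        push_cast at hl1 hl2
        have ha'' : ((a' : ℕ) : ℤ) < D := by exact_mod_cast ha'
        have hb'' : ((b' : ℕ) : ℤ) < D := by exact_mod_cast hb'
        have hb0 : (0 : ℤ) ≤ ((b' : ℕ) : ℤ) := by omega
        have ha0 : (0 : ℤ) ≤ ((a' : ℕ) : ℤ) := by omega
        refine hxx l ?_ ?_
        · rw [hs0]
          linarith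
        · rw [hs0, hT]
          push_cast
          linarith
      rw [h4]
    rw [hB]
    simp only [Set.mem_ofPred_eq]
    rw [h1]
  obtain ⟨U, hU⟩ : ∃ U : Set ℝ, U = {z | ε * (g * m) <
    |∑ t ∈ range (g * m), gi M V (Q t * z) - g * m * f0|} := ⟨_, rfl⟩
  have hUB : ∀ z : ℝ, 0 ≤ z → (z ∈ U ↔ dg (z * 6 ^ (-s0)) ∈ B) := by
    intro z hz
    rw [hU, hB]
    simp only [Set.mem_ofPred_eq]
    have h1 : ∑ t ∈ range (g * m), gi M V (Q t * z) =
        (cnt w n i a b (g * m) (dg (z * 6 ^ (-s0))) : ℝ) := by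
      unfold cnt
      rw [card_filter]
      push_cast
      refine sum_congr rfl fun t ht => ?_
      exact gi_occ w hz s0 (n + t * a) (i + t * b) (hlev t (mem_range.1 ht))
    rw [h1]
  rw [show {x | ε * (g * m) < |(cnt w n i a b (g * m) x : ℝ) - g * m * frq w|} = B from hB.symm,
    bern_dep hdep, ← leb_dep hdep hUB]
  -- split into residue classes
  set V' : Finset ℕ := range (6 ^ M) \ V with hV'
  have hV'sub : V' ⊆ range (6 ^ M) := sdiff_subset
  have hV'card : (V'.card : ℝ) / 6 ^ M = 1 - f0 := by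
    rw [hV', card_sdiff_of_subset hVsub, card_range, Nat.cast_sub (by
      have := card_le_card hVsub
      rwa [card_range] at this), hf0v]
    push_cast
    have h6 : (0 : ℝ) < (6 : ℝ) ^ M := by positivity
    field_simp
  have hrel : ∀ r < g, NoRel H (fun j : Fin m => Q (r + g * j)) := by
    intro r hr
    have hpos : (0 : ℝ) < (6 : ℝ) ^ (i - D - 1 - s0) * (3 / 2) ^ n := by positivity
    refine norel_geo (r := rho a b ^ g) (a := ((6 : ℝ) ^ (i - D - 1 - s0) * (3 / 2) ^ n) * rho a b ^ r)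
      (mul_pos hpos (pow_pos (rho_pos a b) r)).ne' (pow_pos (rho_pos a b) g)
      (hgap a b ha hb hab) _ fun j => ?_
    have hlt : r + g * (j : ℕ) < g * m := by
      have h1 : (j : ℕ) + 1 ≤ m := j.2
      calc r + g * (j : ℕ) < g + g * j := by omega
        _ = g * (j + 1) := by ring
        _ ≤ g * m := Nat.mul_le_mul_left g h1
    rw [hQv _ hlt, pow_add, pow_mul]
    ring
  set U1 : ℕ → Set ℝ := fun r => {z | m * ((V.card : ℝ) / 6 ^ M + ε) ≤
    ∑ j : Fin m, gi M V ((Q (r + g * j) : ℤ) * z)} with hU1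
  set U2 : ℕ → Set ℝ := fun r => {z | m * ((V'.card : ℝ) / 6 ^ M + ε) ≤
    ∑ j : Fin m, gi M V' ((Q (r + g * j) : ℤ) * z)} with hU2
  have hcov : U ⊆ ⋃ r ∈ range g, (U1 r ∪ U2 r) := by
    intro z hz
    rw [hU] at hz
    simp only [Set.mem_ofPred_eq] at hz
    by_contra hcon
    simp only [Set.mem_iUnion, not_exists, Set.mem_union, not_or] at hcon
    apply absurd hz
    push Not
    rw [sum_res m (fun t => gi M V (Q t * z))]
    have h1 : ∀ r ∈ range g, |∑ j ∈ range m, gi M V (Q (r + g * j) * z) - m * f0| ≤ ε * m := by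
      intro r hr
      obtain ⟨h2, h3⟩ := hcon r hr
      rw [hU1] at h2
      rw [hU2] at h3
      simp only [Set.mem_ofPred_eq, not_le] at h2 h3
      rw [← hf0v, Fin.sum_univ_eq_sum_range (fun j => gi M V ((Q (r + g * j) : ℤ) * z)) m] at h2
      rw [hV'card, Fin.sum_univ_eq_sum_range (fun j => gi M V' ((Q (r + g * j) : ℤ) * z)) m] at h3
      simp only [hV', gi_compl M V hVlt] at h3
      rw [sum_sub_distrib, sum_const, card_range, nsmul_eq_mul, mul_one] at h3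
      rw [abs_le]
      constructor <;> nlinarith
    have h2 : ∑ r ∈ range g, ∑ j ∈ range m, gi M V (Q (r + g * j) * z) - g * m * f0 =
        ∑ r ∈ range g, (∑ j ∈ range m, gi M V (Q (r + g * j) * z) - m * f0) := by
      rw [sum_sub_distrib, sum_const, card_range, nsmul_eq_mul]
      ring
    rw [h2]
    refine (abs_sum_le_sum_abs _ _).trans ((sum_le_sum h1).trans ?_)
    rw [sum_const, card_range, nsmul_eq_mul]
    exact le_of_eq (by ring)
  calc Leb.real U ≤ Leb.real (⋃ r ∈ range g, (U1 r ∪ U2 r)) := measureReal_mono hcov (measure_ne_top _ _)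
    _ ≤ ∑ r ∈ range g, Leb.real (U1 r ∪ U2 r) := measureReal_biUnion_finset_le _ _
    _ ≤ ∑ r ∈ range g, 2 * exp (-(ε ^ 2 / 16 * m)) := by
        refine sum_le_sum fun r hr => ?_
        have h1 := hld V (fun c hc => mem_range.1 (hVsub hc)) m _
          ((hrel r (mem_range.1 hr)).mono (hHle V hVsub))
        have h2 := hld V' (fun c hc => mem_range.1 (hV'sub hc)) m _
          ((hrel r (mem_range.1 hr)).mono (hHle V' hV'sub))
        have h3 : Leb.real (U1 r ∪ U2 r) ≤ Leb.real (U1 r) + Leb.real (U2 r) :=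
          measureReal_union_le _ _
        rw [hU1, hU2] at h3 ⊢
        linarith
    _ = 2 * g * exp (-(ε ^ 2 / 16 * m)) := by
        rw [sum_const, card_range, nsmul_eq_mul]
        ring

end Pool.Agent.Y933.KH
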