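import Pool.Agent.Y933.KH.Box
import Pool.Agent.Y933.KH.BLD

/-!
# Frequencies of space-time patterns along lines: random windows (helper933)
-/

set_option autoImplicit false

namespace Pool.Agent.Y933.KH

open Finset MeasureTheory Real
open Pool.Agent.H429R2.Auto

lemma cnt_add {D : ℕ} (w : Fin D → Fin D → Fin 6) (n : ℕ) (i : ℤ) (a : ℕ) (b : ℤ) (T1 T2 : ℕ)
    (x : Conf) : cnt w n i a b (T1 + T2) x =
      cnt w n i a b T1 x + cnt w (n + T1 * a) (i + T1 * b) a b T2 x := by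
  classical
  unfold cnt
  rw [card_filter, card_filter, card_filter, sum_range_add]
  congr 1
  refine sum_congr rfl fun t _ => ?_
  rw [show n + (T1 + t) * a = n + T1 * a + t * a by ring]
  rw [show i + ((T1 + t : ℕ) : ℤ) * b = i + T1 * b + t * b by push_cast; ring]

lemma cnt_le {D : ℕ} (w : Fin D → Fin D → Fin 6) (n : ℕ) (i : ℤ) (a : ℕ) (b : ℤ) (T : ℕ)
    (x : Conf) : cnt w n i a b T x ≤ T := by
  classical
  unfold cnt
  exact (card_filter_le _ _).trans (card_range T).le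

lemma frq_nonneg {D : ℕ} (w : Fin D → Fin D → Fin 6) : 0 ≤ frq w := measureReal_nonneg

lemma frq_le {D : ℕ} (w : Fin D → Fin D → Fin 6) : frq w ≤ 1 := measureReal_le_one

lemma cnt_blocks {D : ℕ} (w : Fin D → Fin D → Fin 6) (a : ℕ) (b : ℤ) (G : ℕ) (x : Conf) (η : ℝ)
    (K : ℕ) (n : ℕ) (i : ℤ)
    (h : ∀ k < K, |(cnt w (n + (k * G) * a) (i + ((k * G : ℕ) : ℤ) * b) a b G x : ℝ) - G * frq w| ≤ η) :
    |(cnt w n i a b (K * G) x : ℝ) - K * G * frq w| ≤ K * η := by
  induction K with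
  | zero => simp [cnt]
  | succ K ih =>
    have h1 := ih fun k hk => h k (by omega)
    have h2 := h K (by omega)
    rw [Nat.succ_mul, cnt_add]
    push_cast at h1 h2 ⊢
    rw [abs_le] at h1 h2 ⊢
    constructor <;> nlinarith [h1.1, h1.2, h2.1, h2.2]

/-- the cell `(n, i)` lies in the reduced light cone of the window -/
def InC (A N : ℕ) (δ : ℝ) (s : ℤ) (n : ℕ) (i : ℤ) : Prop :=
  n ≤ A * N ∧ s - n * kap + δ * N ≤ i ∧ (i : ℝ) ≤ s + N + n - δ * N

open Classical in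
/-- one block of a line -/
lemma one_block (A D : ℕ) (δ : ℝ) (hδ : 0 < δ) (ε : ℝ) (hε : 0 < ε) (hε1 : ε ≤ 1) :
    ∃ g : ℕ, 1 ≤ g ∧ ∃ κ c C : ℝ, 0 < κ ∧ 0 < c ∧ 0 ≤ C ∧ ∀ (N : ℕ) (y : Conf) (s : ℤ)
      (w : Fin D → Fin D → Fin 6) (a : ℕ) (b : ℤ), a ≤ D → |b| ≤ D → (a ≠ 0 ∨ b ≠ 0) →
      ∀ (n : ℕ) (i : ℤ) (m : ℕ), InC A N δ s n i → ((2 * D + 1) * (g * m + 1) : ℝ) ≤ κ * N →
      (D * (g * m) : ℝ) ≤ δ / 2 * N →
      (((Finset.univ : Finset (Fin N → Fin 6)).filter (fun v =>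
        ε * (g * m) < |(cnt w n i a b (g * m) (put y s v) : ℝ) - g * m * frq w|)).card : ℝ) / 6 ^ N ≤
        2 * g * exp (-(ε ^ 2 / 16 * m)) + C * exp (-(c * N)) := by
  obtain ⟨g, hg, hld⟩ := bern_ld D ε hε hε1
  obtain ⟨κ, c, C, hκ, hc, hbox⟩ := box_law 1 A (δ / 2) (by positivity)
  refine ⟨g, hg, κ, c, max C 0, hκ, hc, le_max_right _ _, ?_⟩
  intro N y s w a b ha hb hab n i m hin hL hDm
  obtain ⟨G, hG⟩ : ∃ G : ℕ, G = g * m := ⟨_, rfl⟩
  obtain ⟨L, hLd⟩ : ∃ L : ℕ, L = (2 * D + 1) * (G + 1) := ⟨_, rfl⟩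
  have hD0 : (0 : ℝ) ≤ D := Nat.cast_nonneg D
  obtain ⟨B, hB⟩ : ∃ B : Set Conf, B = {x | ε * (g * m) < |(cnt w n i a b (g * m) x : ℝ) -
    g * m * frq w|} := ⟨_, rfl⟩
  obtain ⟨n1, hn1⟩ : ∃ n1 : Fin 1 → ℕ, n1 = fun _ => n := ⟨_, rfl⟩
  obtain ⟨i1, hi1⟩ : ∃ i1 : Fin 1 → ℤ, i1 = fun _ => i - D * G := ⟨_, rfl⟩
  obtain ⟨S, hS⟩ : ∃ S : Set (Fin 1 → Fin L → Fin L → Fin 6),
    S = {cc | ∃ x, boxes L n1 i1 x = cc ∧ x ∈ B} := ⟨_, rfl⟩
  have hdet : ∀ x x' : Conf, boxes L n1 i1 x = boxes L n1 i1 x' → (x ∈ B → x' ∈ B) := by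
    intro x x' h
    have h1 : cnt w n i a b (g * m) x = cnt w n i a b (g * m) x' := by
      unfold cnt
      congr 1
      refine filter_congr fun t ht => ?_
      have htG : t < G := by rw [hG]; exact mem_range.1 ht
      unfold Occ
      refine forall_congr' fun a' => forall_congr' fun b' => ?_
      have ha' := a'.2
      have hb' := b'.2
      have e1 : t * a ≤ G * D := Nat.mul_le_mul htG.le ha
      obtain ⟨h3, h4⟩ := abs_le.1 hb
      have hDz : (0 : ℤ) ≤ D := by omega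
      have htz : (t : ℤ) ≤ G := by exact_mod_cast htG.le
      have ht0 : (0 : ℤ) ≤ t := by omega
      have e2 : -((D : ℤ) * G) ≤ t * b := by
        have : (t : ℤ) * (-b) ≤ G * D := by
          calc (t : ℤ) * (-b) ≤ t * D := mul_le_mul_of_nonneg_left (by linarith) ht0
            _ ≤ G * D := mul_le_mul_of_nonneg_right htz hDz
        linarith
      have e3 : (t : ℤ) * b ≤ D * G := by
        calc (t : ℤ) * b ≤ t * D := mul_le_mul_of_nonneg_left h4 ht0
          _ ≤ G * D := mul_le_mul_of_nonneg_right htz hDz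
          _ = D * G := by ring
      have hLz : L = 2 * (D * G) + 2 * D + G + 1 := by rw [hLd]; ring
      have e4 : t * a + a' < L := by
        rw [hLz]
        have : G * D = D * G := by ring
        omega
      have ha'' : ((a' : ℕ) : ℤ) < D := by exact_mod_cast ha'
      have hb'' : ((b' : ℕ) : ℤ) < D := by exact_mod_cast hb'
      have hb0 : (0 : ℤ) ≤ ((b' : ℕ) : ℤ) := by omega
      have hG0 : (0 : ℤ) ≤ G := by omega
      have hLi : (L : ℤ) = 2 * (D * G) + 2 * D + G + 1 := by rw [hLz]; push_cast; ring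
      have e5 : 0 ≤ t * b + b' + D * G := by linarith
      have e6 : t * b + b' + D * G < L := by rw [hLi]; linarith
      obtain ⟨r, hr⟩ := Int.eq_ofNat_of_zero_le e5
      have e7 : r < L := by
        rw [hr] at e6
        exact_mod_cast e6
      have h5 := congrFun (congrFun (congrFun h 0) ⟨t * a + a', e4⟩) ⟨r, e7⟩
      unfold boxes at h5
      rw [hn1, hi1] at h5
      simp only at h5
      have e8 : i - D * G + (r : ℤ) = i + t * b + b' := by linarith
      rw [e8, ← add_assoc] at h5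
      rw [h5]
    rw [hB]
    simp only [Set.mem_ofPred_eq]
    rw [h1]
    exact fun h => h
  have hiff : ∀ x, boxes L n1 i1 x ∈ S ↔ x ∈ B := by
    intro x
    rw [hS]
    constructor
    · rintro ⟨x', h1, h2⟩
      exact hdet x' x h1 h2
    · intro h
      exact ⟨x, rfl, h⟩
  have h1 := hbox N y s L n1 i1 (by
      rw [hLd, hG]
      push_cast
      exact hL) (fun j => by
      rw [hn1, hi1]
      simp only
      obtain ⟨h1, h2, h3⟩ := hin
      have h4 : ((D : ℝ) * G) ≤ δ / 2 * N := by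
        rw [hG]
        push_cast
        exact hDm
      have h5 : (0 : ℝ) ≤ (D : ℝ) * G := by positivity
      have h6 : (0 : ℝ) ≤ δ / 2 * N := by positivity
      refine ⟨h1, ?_, ?_⟩
      · push_cast
        linarith
      · push_cast
        linarith) S
  have h2 : (Finset.univ : Finset (Fin N → Fin 6)).filter (fun v => boxes L n1 i1 (put y s v) ∈ S) =
      (Finset.univ : Finset (Fin N → Fin 6)).filter (fun v =>
        ε * (g * m) < |(cnt w n i a b (g * m) (put y s v) : ℝ) - g * m * frq w|) := by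
    refine filter_congr fun v _ => ?_
    rw [hiff, hB]
    rfl
  have h3 : {x | boxes L n1 i1 x ∈ S} = B := by
    ext x
    exact hiff x
  rw [h2, h3] at h1
  have h4 := hld w a b ha hb hab n i m
  have h5 : bern.real B ≤ 2 * g * exp (-(ε ^ 2 / 16 * m)) := by rw [hB]; exact h4
  have h6 := (abs_le.1 h1).2
  have h7 : C * exp (-(c * N)) ≤ max C 0 * exp (-(c * N)) := by
    gcongr
    exact le_max_left _ _
  linarith

lemma poly_le_exp {c : ℝ} (hc : 0 < c) (N : ℕ) :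
    ((N : ℝ) + 1) ^ 2 ≤ (1 / (min 1 (c / 4)) ^ 2) * exp (c / 2 * N) := by
  have h0 : 0 < min 1 (c / 4) := lt_min one_pos (by positivity)
  have h1 : min 1 (c / 4) * ((N : ℝ) + 1) ≤ exp (c / 4 * N) := by
    have h2 := Real.add_one_le_exp (c / 4 * N)
    have h3 : min 1 (c / 4) ≤ 1 := min_le_left _ _
    have h4 : min 1 (c / 4) * (N : ℝ) ≤ c / 4 * N := by
      gcongr
      exact min_le_right _ _
    linarith
  have h5 : (min 1 (c / 4) * ((N : ℝ) + 1)) ^ 2 ≤ exp (c / 2 * N) := by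
    calc (min 1 (c / 4) * ((N : ℝ) + 1)) ^ 2 ≤ (exp (c / 4 * N)) ^ 2 := by
          gcongr
      _ = exp (c / 2 * N) := by
          rw [← Real.exp_nat_mul]
          congr 1
          push_cast
          ring
  rw [one_div, ← div_eq_inv_mul, le_div_iff₀ (by positivity)]
  calc ((N : ℝ) + 1) ^ 2 * (min 1 (c / 4)) ^ 2 = (min 1 (c / 4) * ((N : ℝ) + 1)) ^ 2 := by ring
    _ ≤ _ := h5

open Classical in
/-- **frequencies of all patterns along all lines** -/
theorem freq_main (A D : ℕ) (δ ε : ℝ) (hδ : 0 < δ) (hε : 0 < ε) : ∃ c C : ℝ, 0 < c ∧ 0 < C ∧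
    ∀ (N : ℕ) (y : Conf) (s : ℤ), ∃ Bad : Finset (Fin N → Fin 6),
      (Bad.card : ℝ) ≤ C * exp (-(c * N)) * 6 ^ N ∧
      ∀ v, v ∉ Bad → ∀ (w : Fin D → Fin D → Fin 6) (a : ℕ) (b : ℤ), a ≤ D → |b| ≤ D →
        (a ≠ 0 ∨ b ≠ 0) → ∀ (n : ℕ) (i : ℤ) (T : ℕ), ε * N ≤ T →
        (∀ t < T, InC A N δ s (n + t * a) (i + t * b)) →
        |(cnt w n i a b T (put y s v) : ℝ) - T * frq w| ≤ ε * T := by
  obtain ⟨ε1, hε1⟩ : ∃ ε1 : ℝ, ε1 = min (ε / 2) 1 := ⟨_, rfl⟩
  have hε10 : 0 < ε1 := by rw [hε1]; exact lt_min (by positivity) one_pos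
  have hε1a : ε1 ≤ ε / 2 := by rw [hε1]; exact min_le_left _ _
  have hε1b : ε1 ≤ 1 := by rw [hε1]; exact min_le_right _ _
  obtain ⟨g, hg, κ, c1, C1, hκ, hc1, hC1, hblock⟩ := one_block A D δ hδ ε1 hε10 hε1b
  have hg0 : (1 : ℝ) ≤ g := by exact_mod_cast hg
  have hgp : (0 : ℝ) < g := by linarith
  have hD0 : (0 : ℝ) ≤ D := Nat.cast_nonneg D
  have hA0 : (0 : ℝ) ≤ A := Nat.cast_nonneg A
  -- the size of the blocks
  obtain ⟨c0, hc0, hc0a, hc0b, hc0c⟩ : ∃ c0 : ℝ, 0 < c0 ∧ (2 * D + 1) * (g * c0) ≤ κ / 2 ∧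
      D * (g * c0) ≤ δ / 2 ∧ g * c0 ≤ ε ^ 2 / 2 := by
    refine ⟨min (κ / (2 * (2 * D + 1) * g)) (min (δ / (2 * (D + 1) * g)) (ε ^ 2 / (2 * g))),
      lt_min (by positivity) (lt_min (by positivity) (by positivity)), ?_, ?_, ?_⟩
    · calc (2 * (D : ℝ) + 1) * (g * min (κ / (2 * (2 * D + 1) * g)) (min (δ / (2 * (D + 1) * g)) (ε ^ 2 / (2 * g)))) ≤
            (2 * (D : ℝ) + 1) * (g * (κ / (2 * (2 * D + 1) * g))) := by
              gcongr
              exact min_le_left _ _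
        _ = κ / 2 := by field_simp
    · calc (D : ℝ) * (g * min (κ / (2 * (2 * D + 1) * g)) (min (δ / (2 * (D + 1) * g)) (ε ^ 2 / (2 * g)))) ≤
            ((D : ℝ) + 1) * (g * (δ / (2 * (D + 1) * g))) := by
              gcongr
              · linarith
              · exact (min_le_right _ _).trans (min_le_left _ _)
        _ = δ / 2 := by field_simp
    · calc (g : ℝ) * min (κ / (2 * (2 * D + 1) * g)) (min (δ / (2 * (D + 1) * g)) (ε ^ 2 / (2 * g))) ≤
            g * (ε ^ 2 / (2 * g)) := by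
              gcongr
              exact (min_le_right _ _).trans (min_le_right _ _)
        _ = ε ^ 2 / 2 := by field_simp
  obtain ⟨c2, hc2, hc2a, hc2b⟩ : ∃ c2 : ℝ, 0 < c2 ∧ c2 ≤ ε1 ^ 2 / 16 * c0 ∧ c2 ≤ c1 :=
    ⟨min (ε1 ^ 2 / 16 * c0) c1, lt_min (by positivity) hc1, min_le_left _ _, min_le_right _ _⟩
  obtain ⟨N1, hN1, hN1'⟩ : ∃ N1 : ℕ, 2 * (2 * D + 1) / κ ≤ N1 ∧ 1 / c0 ≤ N1 := by
    obtain ⟨x, hx⟩ := exists_nat_ge (max (2 * (2 * (D : ℝ) + 1) / κ) (1 / c0))
    exact ⟨x, (le_max_left _ _).trans hx, (le_max_right _ _).trans hx⟩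
  -- the constants
  obtain ⟨K0, hK0⟩ : ∃ K0 : ℝ, K0 = (6 : ℝ) ^ (D * D) * (D + 1) * (2 * D + 1) * (A + 1) * (2 * A + 1) *
    (2 * g * exp (ε1 ^ 2 / 16) + C1) := ⟨_, rfl⟩
  have hK00 : 0 ≤ K0 := by rw [hK0]; positivity
  obtain ⟨C, hC⟩ : ∃ C : ℝ, C = K0 * (1 / (min 1 (c2 / 4)) ^ 2) + exp (c2 / 2 * N1) + 1 := ⟨_, rfl⟩
  have hmin : 0 < min 1 (c2 / 4) := lt_min one_pos (by positivity)
  refine ⟨c2 / 2, C, by positivity, by rw [hC]; positivity, fun N y s => ?_⟩
  have h6N : (0 : ℝ) < (6 : ℝ) ^ N := by positivity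
  have hNR : (0 : ℝ) ≤ N := Nat.cast_nonneg N
  rcases lt_or_ge N N1 with hlt | hge
  · refine ⟨Finset.univ, ?_, fun v hv => absurd (Finset.mem_univ v) hv⟩
    rw [card_univ, Fintype.card_fun, Fintype.card_fin, Fintype.card_fin]
    push_cast
    have h1 : (1 : ℝ) ≤ C * exp (-(c2 / 2 * N)) := by
      have h2 : exp (c2 / 2 * N1) ≤ C := by
        rw [hC]
        have : 0 ≤ K0 * (1 / (min 1 (c2 / 4)) ^ 2) := by positivity
        linarith
      calc (1 : ℝ) ≤ exp (c2 / 2 * N1) * exp (-(c2 / 2 * N)) := by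
            rw [← exp_add, Real.one_le_exp_iff]
            have : (N : ℝ) ≤ N1 := by exact_mod_cast hlt.le
            nlinarith
        _ ≤ C * exp (-(c2 / 2 * N)) := by gcongr
    nlinarith
  -- the main case
  obtain ⟨m, hm⟩ : ∃ m : ℕ, m = ⌊c0 * N⌋₊ := ⟨_, rfl⟩
  have hm1 : (m : ℝ) ≤ c0 * N := by rw [hm]; exact Nat.floor_le (by positivity)
  have hm2 : c0 * N - 1 ≤ m := by
    have := (Nat.lt_floor_add_one (c0 * N)).le
    rw [← hm] at this
    linarith
  have hN2 : (2 * (D : ℝ) + 1) ≤ κ / 2 * N := by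
    have h1 : (N1 : ℝ) ≤ N := by exact_mod_cast hge
    have h2 := hN1.trans h1
    rw [div_le_iff₀ hκ] at h2
    linarith
  have hL : ((2 * D + 1) * (g * m + 1) : ℝ) ≤ κ * N := by
    calc ((2 * D + 1) * (g * m + 1) : ℝ) ≤ (2 * D + 1) * (g * (c0 * N) + 1) := by gcongr
      _ = ((2 * D + 1) * (g * c0)) * N + (2 * D + 1) := by ring
      _ ≤ (κ / 2) * N + κ / 2 * N := by gcongr
      _ = κ * N := by ring
  have hDm : (D * (g * m) : ℝ) ≤ δ / 2 * N := by
    calc (D * (g * m) : ℝ) ≤ D * (g * (c0 * N)) := by gcongr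
      _ = (D * (g * c0)) * N := by ring
      _ ≤ δ / 2 * N := by gcongr
  -- the index set
  obtain ⟨J, hJ⟩ : ∃ J : Finset ((Fin D → Fin D → Fin 6) × ℕ × ℤ × ℕ × ℤ),
      J = ((Finset.univ : Finset (Fin D → Fin D → Fin 6)) ×ˢ (range (D + 1)) ×ˢ
        (Finset.Icc (-(D : ℤ)) D) ×ˢ (range (A * N + 1)) ×ˢ
        (Finset.Icc (s - A * N) (s + N + A * N))).filter
        (fun p => (p.2.1 ≠ 0 ∨ p.2.2.1 ≠ 0) ∧ InC A N δ s p.2.2.2.1 p.2.2.2.2) := ⟨_, rfl⟩
  obtain ⟨Ev, hEv⟩ : ∃ Ev : ((Fin D → Fin D → Fin 6) × ℕ × ℤ × ℕ × ℤ) → Finset (Fin N → Fin 6),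
      Ev = fun p => (Finset.univ : Finset (Fin N → Fin 6)).filter (fun v =>
        ε1 * (g * m) < |(cnt p.1 p.2.2.2.1 p.2.2.2.2 p.2.1 p.2.2.1 (g * m) (put y s v) : ℝ) -
          g * m * frq p.1|) := ⟨_, rfl⟩
  refine ⟨J.biUnion Ev, ?_, ?_⟩
  · -- the number of bad words
    have h1 : ∀ p ∈ J, ((Ev p).card : ℝ) ≤
        (2 * g * exp (ε1 ^ 2 / 16) + C1) * exp (-(c2 * N)) * 6 ^ N := by
      intro p hp
      rw [hJ, mem_filter] at hp
      simp only [mem_product, mem_univ, true_and, mem_range, Finset.mem_Icc] at hp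
      obtain ⟨⟨hp1, hp2, hp3, hp4⟩, hp5, hp6⟩ := hp
      have h2 := hblock N y s p.1 p.2.1 p.2.2.1 (by omega) (abs_le.2 hp2) hp5 p.2.2.2.1 p.2.2.2.2 m
        hp6 hL hDm
      rw [div_le_iff₀ h6N] at h2
      have h3 : (Ev p).card = ((Finset.univ : Finset (Fin N → Fin 6)).filter (fun v =>
        ε1 * (g * m) < |(cnt p.1 p.2.2.2.1 p.2.2.2.2 p.2.1 p.2.2.1 (g * m) (put y s v) : ℝ) -
          g * m * frq p.1|)).card := by rw [hEv]
      rw [h3]
      refine h2.trans ?_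
      refine mul_le_mul_of_nonneg_right ?_ h6N.le
      have h4 : exp (-(ε1 ^ 2 / 16 * m)) ≤ exp (ε1 ^ 2 / 16) * exp (-(c2 * N)) := by
        rw [← exp_add]
        apply exp_le_exp.2
        have h5 : ε1 ^ 2 / 16 * (c0 * N - 1) ≤ ε1 ^ 2 / 16 * m := by gcongr
        have h6 : c2 * N ≤ ε1 ^ 2 / 16 * c0 * N := by gcongr
        linarith
      have h5 : exp (-(c1 * N)) ≤ exp (-(c2 * N)) := by
        apply exp_le_exp.2
        have : c2 * N ≤ c1 * N := by gcongr
        linarith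
      calc 2 * g * exp (-(ε1 ^ 2 / 16 * m)) + C1 * exp (-(c1 * N)) ≤
            2 * g * (exp (ε1 ^ 2 / 16) * exp (-(c2 * N))) + C1 * exp (-(c2 * N)) := by gcongr
        _ = (2 * g * exp (ε1 ^ 2 / 16) + C1) * exp (-(c2 * N)) := by ring
    have h2 : (J.card : ℝ) ≤ (6 : ℝ) ^ (D * D) * (D + 1) * (2 * D + 1) * (A + 1) * (2 * A + 1) *
        ((N : ℝ) + 1) ^ 2 := by
      have h3 : J.card ≤ 6 ^ (D * D) * ((D + 1) * ((2 * D + 1) * ((A * N + 1) * ((2 * A + 1) * N + 1)))) := by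
        rw [hJ]
        refine (card_filter_le _ _).trans ?_
        rw [card_product, card_product, card_product, card_product, card_univ, Fintype.card_fun,
          Fintype.card_fun, Fintype.card_fin, Fintype.card_fin, card_range, card_range,
          Int.card_Icc, Int.card_Icc]
        have e1 : ((D : ℤ) + 1 - -(D : ℤ)).toNat = 2 * D + 1 := by omega
        have e2 : (s + N + A * N + 1 - (s - A * N)).toNat = (2 * A + 1) * N + 1 := by
          have : s + N + A * N + 1 - (s - A * N) = (((2 * A + 1) * N + 1 : ℕ) : ℤ) := by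
            push_cast; ring
          rw [this, Int.toNat_natCast]
        rw [e1, e2, ← pow_mul]
      calc (J.card : ℝ) ≤ ((6 ^ (D * D) * ((D + 1) * ((2 * D + 1) * ((A * N + 1) *
            ((2 * A + 1) * N + 1)))) : ℕ) : ℝ) := by exact_mod_cast h3
        _ = (6 : ℝ) ^ (D * D) * (D + 1) * (2 * D + 1) * ((A * N + 1) * ((2 * A + 1) * N + 1)) := by
            push_cast
            ring
        _ ≤ (6 : ℝ) ^ (D * D) * (D + 1) * (2 * D + 1) * (((A + 1) * (N + 1)) * ((2 * A + 1) * (N + 1))) := by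
            gcongr
            · nlinarith
            · nlinarith
        _ = _ := by ring
    have h3 : ((J.biUnion Ev).card : ℝ) ≤ ∑ p ∈ J, ((Ev p).card : ℝ) := by
      exact_mod_cast card_biUnion_le
    refine h3.trans ((sum_le_sum h1).trans ?_)
    rw [sum_const, nsmul_eq_mul]
    have h4 := poly_le_exp hc2 N
    have h5 : 0 ≤ (2 * g * exp (ε1 ^ 2 / 16) + C1) := by positivity
    calc (J.card : ℝ) * ((2 * g * exp (ε1 ^ 2 / 16) + C1) * exp (-(c2 * N)) * 6 ^ N) ≤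
          ((6 : ℝ) ^ (D * D) * (D + 1) * (2 * D + 1) * (A + 1) * (2 * A + 1) * ((N : ℝ) + 1) ^ 2) *
            ((2 * g * exp (ε1 ^ 2 / 16) + C1) * exp (-(c2 * N)) * 6 ^ N) := by gcongr
      _ = K0 * ((N : ℝ) + 1) ^ 2 * exp (-(c2 * N)) * 6 ^ N := by rw [hK0]; ring
      _ ≤ K0 * ((1 / (min 1 (c2 / 4)) ^ 2) * exp (c2 / 2 * N)) * exp (-(c2 * N)) * 6 ^ N := by gcongr
      _ = (K0 * (1 / (min 1 (c2 / 4)) ^ 2)) * (exp (c2 / 2 * N) * exp (-(c2 * N))) * 6 ^ N := by ring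
      _ = (K0 * (1 / (min 1 (c2 / 4)) ^ 2)) * exp (-(c2 / 2 * N)) * 6 ^ N := by
          rw [← exp_add]
          congr 3
          ring
      _ ≤ C * exp (-(c2 / 2 * N)) * 6 ^ N := by
          gcongr
          rw [hC]
          have := exp_pos (c2 / 2 * N1)
          linarith
  · -- the good words
    intro v hv w a b ha hb hab n i T hT hcone
    rw [mem_biUnion] at hv
    push Not at hv
    obtain ⟨G, hG⟩ : ∃ G : ℕ, G = g * m := ⟨_, rfl⟩
    have hGR : (G : ℝ) = g * m := by rw [hG]; push_cast; ring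
    have hGle : (G : ℝ) ≤ ε / 2 * T := by
      rw [hGR]
      calc (g : ℝ) * m ≤ g * (c0 * N) := by gcongr
        _ = (g * c0) * N := by ring
        _ ≤ (ε ^ 2 / 2) * N := by gcongr
        _ = ε / 2 * (ε * N) := by ring
        _ ≤ ε / 2 * T := by gcongr
    obtain ⟨K, hK⟩ : ∃ K : ℕ, K = T / G := ⟨_, rfl⟩
    have hKT : K * G + T % G = T := by
      rw [hK]
      have := Nat.div_add_mod T G
      rw [mul_comm] at this
      exact this
    have hf0 := frq_nonneg w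
    have hf1 := frq_le w
    have hrest : (T % G : ℕ) ≤ (G : ℝ) ∨ G = 0 := by
      rcases Nat.eq_zero_or_pos G with h0 | h0
      · right; exact h0
      · left; exact_mod_cast (Nat.mod_lt T h0).le
    have hblocks : |(cnt w n i a b (K * G) (put y s v) : ℝ) - K * G * frq w| ≤ K * (ε1 * G) := by
      refine cnt_blocks w a b G (put y s v) (ε1 * G) K n i fun k hk => ?_
      rcases Nat.eq_zero_or_pos G with h0 | h0
      · rw [h0]
        simp [cnt]
      have hkT : k * G < T := by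
        have h1 : k * G < K * G := Nat.mul_lt_mul_of_pos_right hk h0
        omega
      have hin := hcone (k * G) hkT
      have hmem : (w, a, b, n + k * G * a, i + ((k * G : ℕ) : ℤ) * b) ∈ J := by
        rw [hJ, mem_filter]
        simp only [mem_product, mem_univ, true_and, mem_range, Finset.mem_Icc]
        obtain ⟨h1, h2, h3⟩ := hin
        have h4 : ((n + k * G * a : ℕ) : ℝ) ≤ A * N := by exact_mod_cast h1
        have h5 : ((n + k * G * a : ℕ) : ℝ) * kap ≤ A * N := by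
          calc ((n + k * G * a : ℕ) : ℝ) * kap ≤ ((n + k * G * a : ℕ) : ℝ) * 1 := by
                gcongr
                exact kap_le_one
            _ ≤ A * N := by rw [mul_one]; exact h4
        have h6 : (0 : ℝ) ≤ δ * N := by positivity
        refine ⟨⟨by omega, abs_le.1 hb, by omega, ?_, ?_⟩, hab, h1, h2, h3⟩
        · have h7 : ((s - A * N : ℤ) : ℝ) ≤ ((i + ((k * G : ℕ) : ℤ) * b : ℤ) : ℝ) := by
            push_cast at h2 h5 ⊢
            linarith
          exact_mod_cast h7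
        · have h7 : ((i + ((k * G : ℕ) : ℤ) * b : ℤ) : ℝ) ≤ ((s + N + A * N : ℤ) : ℝ) := by
            push_cast at h3 h4 ⊢
            linarith
          exact_mod_cast h7
      have h1 := hv _ hmem
      rw [hEv] at h1
      simp only [mem_filter, mem_univ, true_and, not_lt] at h1
      rw [← hG, ← hGR] at h1
      exact h1
    have hsplit : (cnt w n i a b T (put y s v) : ℝ) = cnt w n i a b (K * G) (put y s v) +
        cnt w (n + (K * G) * a) (i + ((K * G : ℕ) : ℤ) * b) a b (T % G) (put y s v) := by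
      have h1 := cnt_add w n i a b (K * G) (T % G) (put y s v)
      rw [hKT] at h1
      rw [h1]
      push_cast
      ring
    have hlast : (cnt w (n + (K * G) * a) (i + ((K * G : ℕ) : ℤ) * b) a b (T % G) (put y s v) : ℝ) ≤
        (T % G : ℕ) := by exact_mod_cast cnt_le _ _ _ _ _ _ _
    have hlast0 : (0 : ℝ) ≤ (cnt w (n + (K * G) * a) (i + ((K * G : ℕ) : ℤ) * b) a b (T % G)
      (put y s v) : ℝ) := Nat.cast_nonneg _
    have hTR : (T : ℝ) = K * G + (T % G : ℕ) := by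
      have : ((K * G + T % G : ℕ) : ℝ) = (T : ℝ) := by rw [hKT]
      push_cast at this
      linarith
    have hKG : (K : ℝ) * G ≤ T := by
      rw [hTR]
      have : (0 : ℝ) ≤ ((T % G : ℕ) : ℝ) := Nat.cast_nonneg _
      linarith
    have hmain : |(cnt w n i a b T (put y s v) : ℝ) - T * frq w| ≤ ε1 * (K * G) + (T % G : ℕ) := by
      rw [hsplit]
      have h1 := abs_le.1 hblocks
      have h2 : (T : ℝ) * frq w = K * G * frq w + (T % G : ℕ) * frq w := by rw [hTR]; ring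
      rw [h2, abs_le]
      have h3 : (0 : ℝ) ≤ ((T % G : ℕ) : ℝ) := Nat.cast_nonneg _
      have h4 : ((T % G : ℕ) : ℝ) * frq w ≤ (T % G : ℕ) := by nlinarith
      have h5 : 0 ≤ ((T % G : ℕ) : ℝ) * frq w := by positivity
      constructor
      · nlinarith [h1.1]
      · nlinarith [h1.2]
    have hT0 : (0 : ℝ) ≤ T := Nat.cast_nonneg T
    rcases hrest with h0 | h0
    · refine hmain.trans ?_
      have h1 : ε1 * (K * G) ≤ ε / 2 * T := by gcongr
      linarith
    · -- no blocks: `m = 0`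
      exfalso
      have hm0 : m = 0 := by
        rcases Nat.mul_eq_zero.1 (hG.symm.trans h0) with h1 | h1
        · omega
        · exact h1
      have h1 : (N1 : ℝ) ≤ N := by exact_mod_cast hge
      have h2 := hN1'.trans h1
      rw [div_le_iff₀ hc0] at h2
      have h3 : 1 ≤ m := by
        rw [hm]
        apply Nat.le_floor
        push_cast
        linarith
      omega

end Pool.Agent.Y933.KH
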