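import Pool.Agent.Y933.KD.Power

/-!
# Tests with arbitrary integer multipliers (helper933)
-/

set_option autoImplicit false

namespace Pool.Agent.Y933.KH

open Finset Real MeasureTheory
open Pool.Agent.Y933.KD

/-- the event: the fractional parts of `q_i x` lie in the intervals `[u_i, v_i)` -/
def EvQ {k : ℕ} (q : Fin k → ℤ) (u v : Fin k → ℝ) : Set ℝ :=
  {x | ∀ i, u i ≤ Int.fract ((q i : ℝ) * x) ∧ Int.fract ((q i : ℝ) * x) < v i}

lemma measurableSet_EvQ {k : ℕ} (q : Fin k → ℤ) (u v : Fin k → ℝ) : MeasurableSet (EvQ q u v) := by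
  unfold EvQ
  rw [Set.ofPred_forall]
  refine MeasurableSet.iInter fun i => ?_
  have h1 : Measurable (fun x : ℝ => Int.fract ((q i : ℝ) * x)) :=
    measurable_fract.comp (measurable_const_mul _)
  exact (measurableSet_le measurable_const h1).inter (measurableSet_lt h1 measurable_const)

lemma integral_indQ {k : ℕ} (P : Measure ℝ) [IsProbabilityMeasure P] (q : Fin k → ℤ)
    (u v : Fin k → ℝ) :
    ∫ x, ∏ i, ind (u i) (v i) ((q i : ℝ) * x) ∂P = P.real (EvQ q u v) := by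
  classical
  rw [← integral_indicator_one (measurableSet_EvQ q u v)]
  refine integral_congr_ae (Filter.Eventually.of_forall fun x => ?_)
  simp only
  by_cases hx : x ∈ EvQ q u v
  · rw [Set.indicator_of_mem hx, Pi.one_apply]
    refine prod_eq_one fun i _ => ?_
    unfold ind
    rw [if_pos]
    exact hx i
  · rw [Set.indicator_of_notMem hx]
    have h1 : ∃ i, ¬ (u i ≤ Int.fract ((q i : ℝ) * x) ∧ Int.fract ((q i : ℝ) * x) < v i) := by
      by_contra hcon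
      push Not at hcon
      exact hx hcon
    obtain ⟨i, hi⟩ := h1
    refine prod_eq_zero (mem_univ i) ?_
    unfold ind
    rw [if_neg hi]

theorem power_q (k : ℕ) (η : ℝ) (hη : 0 < η) :
    ∃ δ : ℝ, 0 < δ ∧ ∃ C : ℝ, 0 ≤ C ∧ ∀ X : ℝ, 1 ≤ X → ∀ (P : Measure ℝ) [IsProbabilityMeasure P]
      (q : Fin k → ℤ), (∀ i, q i ≠ 0) →
      (∀ h : Fin k → ℤ, (∀ i, |(h i : ℝ)| ≤ X ^ η) → ∑ i, h i * q i ≠ 0 →
        ‖hat P (∑ i, h i * q i)‖ ≤ X ^ (-η)) →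
      ∀ u v : Fin k → ℝ, (∀ i, 0 ≤ u i) → (∀ i, v i ≤ 1) →
      |P.real (EvQ q u v) - Leb.real (EvQ q u v)| ≤ C * X ^ (-δ) := by
  -- the exponent
  obtain ⟨δ, hδ, hδ1, hδ2⟩ : ∃ δ : ℝ, 0 < δ ∧ 3 * δ ≤ η ∧ 3 * δ * k + δ ≤ η := by
    refine ⟨η / (3 * k + 4), by positivity, ?_, ?_⟩
    · rw [mul_div_assoc', div_le_iff₀ (by positivity)]
      have : (0 : ℝ) ≤ k := Nat.cast_nonneg k
      nlinarith
    · have hk : (0 : ℝ) ≤ k := Nat.cast_nonneg k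
      have e1 : 3 * (η / (3 * k + 4)) * k + η / (3 * k + 4) = η * ((3 * k + 1) / (3 * k + 4)) := by
        field_simp
      rw [e1]
      have : (3 * (k : ℝ) + 1) / (3 * k + 4) ≤ 1 := by
        rw [div_le_one (by positivity)]; linarith
      nlinarith
  refine ⟨δ, hδ, 3 ^ k + k * 29, by positivity, fun M hM1 P _ q hq hP u v hu hv => ?_⟩
  have hMpos : (0 : ℝ) < M := by linarith
  set K : ℕ := ⌊(M : ℝ) ^ δ⌋₊ with hKdef
  have hMδ : 1 ≤ (M : ℝ) ^ δ := Real.one_le_rpow hM1 hδ.le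
  have hK : 0 < K := Nat.floor_pos.2 hMδ
  have hK1 : (K : ℝ) ≤ (M : ℝ) ^ δ := Nat.floor_le (by linarith)
  have hK2 : (M : ℝ) ^ δ ≤ 2 * K := by
    have h1 := Nat.lt_floor_add_one ((M : ℝ) ^ δ)
    have h2 : (1 : ℝ) ≤ K := by exact_mod_cast hK
    rw [← hKdef] at h1
    linarith
  have hKR : (0 : ℝ) < K := by exact_mod_cast hK
  have hK3 : (K : ℝ) ^ 3 ≤ (M : ℝ) ^ (3 * δ) := by
    calc (K : ℝ) ^ 3 ≤ ((M : ℝ) ^ δ) ^ 3 := by gcongr
      _ = (M : ℝ) ^ (3 * δ) := by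
          rw [← Real.rpow_natCast, ← Real.rpow_mul hMpos.le]
          congr 1
          push_cast
          ring
  have hΔ0 : 0 ≤ (M : ℝ) ^ (-η) := by positivity
  have key := test hK P Leb hat_Leb q hq ((M : ℝ) ^ (-η))
    (by
      intro h hh hne
      refine hP h (fun i => ?_) hne
      have h1 : |(h i : ℝ)| ≤ (K : ℝ) ^ 3 := by exact_mod_cast hh i
      exact (h1.trans hK3).trans (Real.rpow_le_rpow_of_exponent_le hM1 hδ1)) hΔ0 u v hu hv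
  rw [integral_indQ, integral_indQ] at key
  refine key.trans ?_
  have hMM : (M : ℝ) ^ (-η) ≤ (M : ℝ) ^ (-δ) :=
    Real.rpow_le_rpow_of_exponent_le hM1 (by
      have : (0 : ℝ) ≤ k := Nat.cast_nonneg k
      nlinarith)
  have h1 : (2 * (K : ℝ) ^ 3 + 1) ^ k * (M : ℝ) ^ (-η) ≤ 3 ^ k * (M : ℝ) ^ (-δ) := by
    have h2 : 2 * (K : ℝ) ^ 3 + 1 ≤ 3 * (M : ℝ) ^ (3 * δ) := by
      have : 1 ≤ (M : ℝ) ^ (3 * δ) := Real.one_le_rpow hM1 (by positivity)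
      linarith
    calc (2 * (K : ℝ) ^ 3 + 1) ^ k * (M : ℝ) ^ (-η)
        ≤ (3 * (M : ℝ) ^ (3 * δ)) ^ k * (M : ℝ) ^ (-η) := by gcongr
      _ = 3 ^ k * ((M : ℝ) ^ (3 * δ * k) * (M : ℝ) ^ (-η)) := by
          rw [mul_pow, ← Real.rpow_natCast ((M : ℝ) ^ (3 * δ)), ← Real.rpow_mul hMpos.le]
          ring
      _ ≤ 3 ^ k * (M : ℝ) ^ (-δ) := by
          rw [← Real.rpow_add hMpos]
          refine mul_le_mul_of_nonneg_left ?_ (by positivity)
          exact Real.rpow_le_rpow_of_exponent_le hM1 (by linarith)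
  have h2 : 12 / (K : ℝ) ≤ 24 * (M : ℝ) ^ (-δ) := by
    rw [Real.rpow_neg hMpos.le, div_le_iff₀ hKR]
    have h3 : 0 < (M : ℝ) ^ δ := by positivity
    have h4 : 24 * ((M : ℝ) ^ δ)⁻¹ * K = 12 * ((2 * K) / (M : ℝ) ^ δ) := by field_simp; ring
    rw [h4]
    have h5 : 1 ≤ 2 * (K : ℝ) / (M : ℝ) ^ δ := by rw [le_div_iff₀ h3]; linarith
    linarith
  have hk : (0 : ℝ) ≤ k := Nat.cast_nonneg k
  have h3 : (k : ℝ) * (12 / K + 5 * (M : ℝ) ^ (-η)) ≤ k * (29 * (M : ℝ) ^ (-δ)) := by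
    refine mul_le_mul_of_nonneg_left ?_ hk
    linarith
  calc (2 * (K : ℝ) ^ 3 + 1) ^ k * (M : ℝ) ^ (-η) + k * (12 / K + 5 * (M : ℝ) ^ (-η))
      ≤ 3 ^ k * (M : ℝ) ^ (-δ) + k * (29 * (M : ℝ) ^ (-δ)) := add_le_add h1 h3
    _ = (3 ^ k + k * 29) * (M : ℝ) ^ (-δ) := by ring

end Pool.Agent.Y933.KH
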