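import Pool.Agent.Y933.KH.Bern
import Pool.Agent.Y933.KD.Power

/-!
# Configurations with a rewritten window, and their values (helper933)
-/

set_option autoImplicit false

namespace Pool.Agent.Y933.KH

open Finset MeasureTheory
open Pool.Agent.H429R2.Auto

/-! ### locality -/

lemma F_local {x x' : Conf} {i : ℤ} (h : ∀ j, i - 1 ≤ j → j ≤ i + 1 → x j = x' j) :
    F x i = F x' i := by
  unfold F mul3 shiftR
  have h1 := h (i - 1) (by omega) (by omega)
  have h2 := h i (by omega) (by omega)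
  have h3 := h (i + 1) (by omega) (by omega)
  have e1 : i + 1 - 1 = i := by ring
  have e2 : i + 1 + 1 - 1 = i + 1 := by ring
  simp only [e1, e2]
  rw [h1, h2, h3]

lemma iter_local (n : ℕ) : ∀ {x x' : Conf} {a b : ℤ},
    (∀ i, a - n ≤ i → i ≤ b + n → x i = x' i) → ∀ i, a ≤ i → i ≤ b → F^[n] x i = F^[n] x' i := by
  induction n with
  | zero =>
    intro x x' a b h i h1 h2
    exact h i (by push_cast; omega) (by push_cast; omega)
  | succ n ih =>
    intro x x' a b h i h1 h2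
    rw [Function.iterate_succ_apply', Function.iterate_succ_apply']
    apply F_local
    intro j hj1 hj2
    refine ih (a := a - 1) (b := b + 1) (fun l hl1 hl2 => ?_) j (by omega) (by omega)
    exact h l (by push_cast; omega) (by push_cast; omega)

/-! ### the word in a window of a row, in terms of the real number -/

lemma rd_rep {x : Conf} {β : ℝ} (hβ : 0 ≤ β) (h : Rep x β) (s : ℤ) (M w : ℕ) (hw : w < 6 ^ M) :
    rd s M x = w ↔ (w : ℝ) / 6 ^ M ≤ Int.fract ((6 : ℝ) ^ s * β) ∧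
      Int.fract ((6 : ℝ) ^ s * β) < ((w : ℝ) + 1) / 6 ^ M := by
  have hy : (0 : ℝ) ≤ (6 : ℝ) ^ s * β := by positivity
  set y : ℝ := (6 : ℝ) ^ s * β with hyd
  have h6 : (0 : ℝ) < (6 : ℝ) ^ M := by positivity
  have e1 : rd s M x = ⌊(6 : ℝ) ^ M * y⌋₊ % 6 ^ M := by
    apply eq_of_digits M _ _ (rd_lt s M x) (Nat.mod_lt _ (by positivity))
    intro r hr
    rw [rd_digit s M x r hr, h]
    have e2 : (6 : ℝ) ^ (s + M - r : ℤ) * β = ((6 : ℝ) ^ M * y) / ((6 ^ r : ℕ) : ℝ) := by
      rw [hyd, zpow_sub₀ (by norm_num), zpow_add₀ (by norm_num), zpow_natCast, zpow_natCast]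
      push_cast
      ring
    rw [e2, Nat.floor_div_natCast]
    have e3 : 6 ^ M = 6 ^ r * 6 ^ (M - r) := by rw [← pow_add]; congr 1; omega
    conv_rhs => rw [e3]
    rw [Nat.mod_mul_right_div_self, Nat.mod_mod_of_dvd]
    exact dvd_pow_self 6 (by omega)
  have e4 : ⌊(6 : ℝ) ^ M * y⌋₊ = ⌊(6 : ℝ) ^ M * Int.fract y⌋₊ + 6 ^ M * ⌊y⌋₊ := by
    rw [← Nat.floor_add_natCast (mul_nonneg h6.le (Int.fract_nonneg y))]
    congr 1
    push_cast
    have e5 : y = Int.fract y + (⌊y⌋₊ : ℝ) := by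
      have h1 := Int.fract_add_floor y
      have h2 : ((⌊y⌋₊ : ℕ) : ℝ) = (⌊y⌋ : ℝ) := by
        exact_mod_cast Int.natCast_floor_eq_floor hy
      rw [h2, h1]
    nth_rewrite 1 [e5]
    ring
  have e6 : ⌊(6 : ℝ) ^ M * Int.fract y⌋₊ < 6 ^ M := by
    rw [Nat.floor_lt (mul_nonneg h6.le (Int.fract_nonneg y))]
    push_cast
    have := Int.fract_lt_one y
    nlinarith
  rw [e1, e4, Nat.add_mul_mod_self_left, Nat.mod_eq_of_lt e6,
    Nat.floor_eq_iff (mul_nonneg h6.le (Int.fract_nonneg y)), div_le_iff₀ h6, lt_div_iff₀ h6,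
    mul_comm]

/-! ### rewriting a window -/

/-- the configuration `y` with the cells `s, …, s + N - 1` replaced by `v` -/
def put (y : Conf) (s : ℤ) {N : ℕ} (v : Fin N → Fin 6) : Conf := fun i =>
  if h : s ≤ i ∧ i < s + N then v ⟨(i - s).toNat, by omega⟩ else y i

/-- the configuration `y` with the number `W` written in the cells `s, …, s + N - 1` -/
noncomputable def putW (y : Conf) (s : ℤ) (N W : ℕ) : Conf := fun i =>
  if s ≤ i ∧ i < s + N then wr (s - 1) N W i else y i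

open Classical in
lemma card_put (y : Conf) (s : ℤ) (N : ℕ) (B : Set Conf) :
    ((Finset.univ : Finset (Fin N → Fin 6)).filter (fun v => put y s v ∈ B)).card =
      ((range (6 ^ N)).filter (fun W => putW y s N W ∈ B)).card := by
  have h1 : ∀ v : Fin N → Fin 6, putW y s N (rd (s - 1) N (put y s v)) = put y s v := by
    intro v
    funext i
    unfold putW
    split_ifs with h
    · have h2 := (agree_wr (s - 1) N _ (rd_lt (s - 1) N (put y s v)) (put y s v)).2 rfl i
        (by omega) (by omega)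
      exact h2.symm
    · unfold put
      rw [dif_neg h]
  have h3 : ∀ W < 6 ^ N, put y s (fun r : Fin N => wr (s - 1) N W (s + r)) = putW y s N W := by
    intro W _
    funext i
    unfold put putW
    split_ifs with h
    · simp only
      rw [show s + (((i - s).toNat : ℕ) : ℤ) = i by omega]
    · rfl
  have h4 : ∀ W < 6 ^ N, rd (s - 1) N (putW y s N W) = W := by
    intro W hW
    refine (agree_wr (s - 1) N W hW _).1 ?_
    intro i h5 h6
    unfold putW
    rw [if_pos ⟨by omega, by omega⟩]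
  have h5 : ∀ v : Fin N → Fin 6, (fun r : Fin N => wr (s - 1) N (rd (s - 1) N (put y s v)) (s + r)) =
      v := by
    intro v
    funext r
    have h6 := (agree_wr (s - 1) N _ (rd_lt (s - 1) N (put y s v)) (put y s v)).2 rfl (s + r)
      (by omega) (by have := r.2; omega)
    rw [← h6]
    unfold put
    rw [dif_pos ⟨by omega, by have := r.2; omega⟩]
    congr 1
    apply Fin.ext
    simp
  refine Finset.card_nbij' (fun v => rd (s - 1) N (put y s v))
    (fun W => fun r : Fin N => wr (s - 1) N W (s + r)) ?_ ?_ ?_ ?_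
  · intro v hv
    simp only [Finset.coe_filter, Finset.mem_univ, true_and, Set.mem_ofPred_eq,
      Finset.mem_range] at hv ⊢
    exact ⟨rd_lt _ _ _, by rw [h1]; exact hv⟩
  · intro W hW
    simp only [Finset.coe_filter, Finset.mem_univ, true_and, Set.mem_ofPred_eq,
      Finset.mem_range] at hW ⊢
    rw [h3 W hW.1]
    exact hW.2
  · intro v _
    exact h5 v
  · intro W hW
    simp only [Finset.coe_filter, Set.mem_ofPred_eq, Finset.mem_range] at hW
    simp only
    rw [h3 W hW.1]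
    exact h4 W hW.1

lemma rep_put {x0 : Conf} {α0 : ℝ} (h0 : 0 ≤ α0) (hx : Rep x0 α0) (s : ℤ) (N : ℕ)
    (hz : ∀ i, s ≤ i → i < s + N → x0 i = 0) (W : ℕ) (hW : W < 6 ^ N) :
    Rep (putW x0 s N W) (α0 + W * 6 ^ (-(s - 1 + N))) := by
  obtain ⟨p, hp⟩ : ∃ p : ℤ, p = s - 1 + N := ⟨_, rfl⟩
  rw [← hp]
  set a : ℕ := ⌊(6 : ℝ) ^ p * α0⌋₊ with ha
  have hpa : (0 : ℝ) ≤ (6 : ℝ) ^ p * α0 := by positivity
  -- the digits of `x0` to the left
  have hd : ∀ r : ℕ, ((x0 (p - r) : Fin 6) : ℕ) = a / 6 ^ r % 6 := by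
    intro r
    rw [hx]
    have e1 : (6 : ℝ) ^ (p - r : ℤ) * α0 = ((6 : ℝ) ^ p * α0) / ((6 ^ r : ℕ) : ℝ) := by
      rw [zpow_sub₀ (by norm_num), zpow_natCast]
      push_cast
      ring
    rw [e1, Nat.floor_div_natCast]
  have hdiv : a % 6 ^ N = 0 := by
    apply eq_of_digits N _ _ (Nat.mod_lt _ (by positivity)) (by positivity)
    intro r hr
    have e3 : 6 ^ N = 6 ^ r * 6 ^ (N - r) := by rw [← pow_add]; congr 1; omega
    rw [e3, Nat.mod_mul_right_div_self, Nat.mod_mod_of_dvd _ (dvd_pow_self 6 (by omega)), ← hd r,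
      hz _ (by omega) (by omega)]
    simp
  obtain ⟨b, hb⟩ : ∃ b, a = 6 ^ N * b := ⟨a / 6 ^ N, by
    have := Nat.div_add_mod a (6 ^ N)
    omega⟩
  intro i
  rcases le_or_gt i p with hip | hip
  · obtain ⟨r, hr⟩ := Int.eq_ofNat_of_zero_le (sub_nonneg.2 hip)
    have hi : i = p - r := by omega
    have e1 : (6 : ℝ) ^ i * (α0 + W * 6 ^ (-p)) = ((6 : ℝ) ^ p * α0 + W) / ((6 ^ r : ℕ) : ℝ) := by
      rw [hi, zpow_sub₀ (by norm_num), zpow_natCast, zpow_neg]
      push_cast
      field_simp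
    rw [e1, Nat.floor_div_natCast, Nat.floor_add_natCast hpa, ← ha]
    by_cases hrN : r < N
    · have h1 : s ≤ i ∧ i < s + N := by omega
      unfold putW
      rw [if_pos h1]
      have h2 := wr_cell (s - 1) N W r hrN
      rw [show s - 1 + N - r = i by omega] at h2
      rw [h2, hb]
      have e3 : 6 ^ N = 6 ^ r * (6 * 6 ^ (N - r - 1)) := by
        rw [← pow_succ', ← pow_add]; congr 1; omega
      rw [e3, mul_assoc, Nat.mul_add_div (by positivity), mul_assoc, Nat.mul_add_mod]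
    · have h1 : ¬ (s ≤ i ∧ i < s + N) := by omega
      unfold putW
      rw [if_neg h1, hi, hd r]
      have e3 : 6 ^ r = 6 ^ N * 6 ^ (r - N) := by rw [← pow_add]; congr 1; omega
      rw [e3, ← Nat.div_div_eq_div_mul, ← Nat.div_div_eq_div_mul, hb, Nat.mul_add_div (by positivity),
        Nat.div_eq_of_lt hW, add_zero, Nat.mul_div_cancel_left _ (by positivity)]
  · have h1 : ¬ (s ≤ i ∧ i < s + N) := by omega
    unfold putW
    rw [if_neg h1, hx]
    obtain ⟨l, hl⟩ : ∃ l : ℕ, i = p + (l + 1 : ℕ) := ⟨(i - p - 1).toNat, by omega⟩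
    have e1 : (6 : ℝ) ^ i * (α0 + W * 6 ^ (-p)) = (6 : ℝ) ^ i * α0 + ((6 * (6 ^ l * W) : ℕ) : ℝ) := by
      rw [mul_add]
      congr 1
      rw [hl, zpow_add₀ (by norm_num), zpow_natCast, zpow_neg]
      push_cast
      field_simp
      ring
    rw [e1, Nat.floor_add_natCast (by positivity), Nat.add_mul_mod_self_left]

/-! ### the Lebesgue side -/

open Pool.Agent.Y933.KD (Leb)

open Classical in
lemma leb_dep {s : ℤ} {T : ℕ} {B : Set Conf} (hB : DepOn s T B) {U : Set ℝ}
    (hU : ∀ z : ℝ, 0 ≤ z → (z ∈ U ↔ dg (z * 6 ^ (-s)) ∈ B)) :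
    Leb.real U = (((range (6 ^ T)).filter (fun W => wr s T W ∈ B)).card : ℝ) / 6 ^ T := by
  have h6 : (0 : ℝ) < (6 : ℝ) ^ T := by positivity
  -- the digits of `z`
  have hdig : ∀ (z : ℝ), 0 ≤ z → ∀ W : ℕ, ⌊(6 : ℝ) ^ T * z⌋₊ = W → W < 6 ^ T →
      (z ∈ U ↔ wr s T W ∈ B) := by
    intro z hz W hzW hW
    rw [hU z hz]
    apply hB
    rw [agree_wr s T W hW]
    apply eq_of_digits T _ _ (rd_lt _ _ _) hW
    intro r hr
    rw [rd_digit s T _ r hr]
    unfold dg
    simp only
    have e1 : (6 : ℝ) ^ (s + T - r : ℤ) * (z * 6 ^ (-s)) = ((6 : ℝ) ^ T * z) / ((6 ^ r : ℕ) : ℝ) := by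
      rw [zpow_sub₀ (by norm_num), zpow_add₀ (by norm_num), zpow_natCast, zpow_natCast, zpow_neg]
      push_cast
      field_simp
    rw [e1, Nat.floor_div_natCast, hzW]
  have h1 : U ∩ Set.Ico 0 1 = ⋃ W ∈ (range (6 ^ T)).filter (fun W => wr s T W ∈ B),
      Set.Ico ((W : ℝ) / 6 ^ T) (((W : ℝ) + 1) / 6 ^ T) := by
    ext z
    simp only [Set.mem_iUnion, Finset.mem_filter, Finset.mem_range, Set.mem_inter_iff, Set.mem_Ico]
    constructor
    · rintro ⟨hz, hz0, hz1⟩
      have hn : 0 ≤ (6 : ℝ) ^ T * z := by positivity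
      have hlt : ⌊(6 : ℝ) ^ T * z⌋₊ < 6 ^ T := by
        rw [Nat.floor_lt hn]
        push_cast
        nlinarith
      refine ⟨⌊(6 : ℝ) ^ T * z⌋₊, ⟨hlt, (hdig z hz0 _ rfl hlt).1 hz⟩, ?_, ?_⟩
      · rw [div_le_iff₀ h6, mul_comm z]
        exact Nat.floor_le hn
      · rw [lt_div_iff₀ h6, mul_comm z]
        exact Nat.lt_floor_add_one _
    · rintro ⟨W, ⟨hW, hWB⟩, hz1, hz2⟩
      have hW0 : (0 : ℝ) ≤ W := Nat.cast_nonneg W
      have hz0 : 0 ≤ z := le_trans (by positivity) hz1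
      rw [div_le_iff₀ h6] at hz1
      rw [lt_div_iff₀ h6] at hz2
      have hf : ⌊(6 : ℝ) ^ T * z⌋₊ = W := by
        rw [Nat.floor_eq_iff (by positivity)]
        constructor <;> linarith
      refine ⟨(hdig z hz0 W hf hW).2 hWB, hz0, ?_⟩
      have h3 : (W : ℝ) + 1 ≤ 6 ^ T := by exact_mod_cast hW
      by_contra hcon
      push Not at hcon
      nlinarith
  have h2 : Leb.real U = volume.real (U ∩ Set.Ico 0 1) := by
    unfold Leb Measure.real
    have hmeas : MeasurableSet (U ∩ Set.Ico (0 : ℝ) 1) := by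
      rw [h1]
      exact Finset.measurableSet_biUnion _ fun W _ => measurableSet_Ico
    rw [Measure.restrict_apply' measurableSet_Ico]
  rw [h2, h1, measureReal_biUnion_finset (hd := ?_) (hm := ?_)
    (h := fun W _ => by rw [Real.volume_Ico]; exact ENNReal.ofReal_ne_top)]
  · have h3 : ∀ W : ℕ, volume.real (Set.Ico ((W : ℝ) / 6 ^ T) (((W : ℝ) + 1) / 6 ^ T)) = 1 / 6 ^ T := by
      intro W
      rw [Real.volume_real_Ico_of_le (by
        rw [div_le_div_iff_of_pos_right h6]; linarith)]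
      ring
    rw [sum_congr rfl fun W _ => h3 W, sum_const, nsmul_eq_mul]
    ring
  · intro a _ b _ hab
    rw [Function.onFun, Set.disjoint_left]
    rintro z ⟨h3, h4⟩ ⟨h5, h6'⟩
    apply hab
    rw [div_le_iff₀ h6] at h3 h5
    rw [lt_div_iff₀ h6] at h4 h6'
    have h7 : (a : ℝ) < b + 1 := by linarith
    have h8 : (b : ℝ) < a + 1 := by linarith
    have h9 : a < b + 1 := by exact_mod_cast h7
    have h10 : b < a + 1 := by exact_mod_cast h8
    omega
  · intro W _
    exact measurableSet_Ico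

end Pool.Agent.Y933.KH
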