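import Pool.Agent.Y933.KH.Far
import Pool.Agent.Y933.KH.PowQ
import Pool.Agent.Y933.KH.Val
import Pool.Agent.Y933.KD.Unif

/-!
# The law of the boxes of the space-time diagram (helper933)
-/

set_option autoImplicit false

namespace Pool.Agent.Y933.KH

open Finset MeasureTheory Real
open Pool.Agent.H429R2.Auto
open Pool.Agent.Y933.KD (Leb unif unif_prob integral_unif real_unif sum_e_le hat e e_add)

/-- the contents of the `k` space-time boxes -/
def boxes {k : ℕ} (L : ℕ) (n : Fin k → ℕ) (i : Fin k → ℤ) (x : Conf) :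
    Fin k → Fin L → Fin L → Fin 6 := fun j a b => F^[n j + a] x (i j + b)

/-- the numbers written in the words of `3 L` cells of the rows `n j` around the positions `i j` -/
def codes {k : ℕ} (L : ℕ) (n : Fin k → ℕ) (i : Fin k → ℤ) (x : Conf) : Fin k → ℕ := fun j =>
  rd (i j - L - 1) (3 * L) (F^[n j] x)

lemma boxes_of_codes {k L : ℕ} {n : Fin k → ℕ} {i : Fin k → ℤ} {x x' : Conf}
    (h : codes L n i x = codes L n i x') : boxes L n i x = boxes L n i x' := by
  funext j a b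
  have h1 := congrFun h j
  unfold codes at h1
  unfold boxes
  rw [add_comm, Function.iterate_add_apply, Function.iterate_add_apply]
  have ha := a.2
  have hb := b.2
  refine iter_local a (a := i j + b) (b := i j + b) (fun l hl1 hl2 => ?_) _ le_rfl le_rfl
  have h2 := (agree_wr (i j - L - 1) (3 * L) _ (rd_lt _ _ _) (F^[n j] x)).2 h1 l
    (by omega) (by push_cast; omega)
  have h3 := (agree_wr (i j - L - 1) (3 * L) _ (rd_lt _ _ _) (F^[n j] x')).2 rfl l
    (by omega) (by push_cast; omega)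
  rw [h2, h3]

/-- the exponential sum -/
lemma hat_le {N : ℕ} {ω y0 : ℝ} (l : ℤ) {ε : ℝ} (hε : 0 < ε) (h : ∀ P : ℤ, ε ≤ |l * ω - P|) :
    ‖hat (unif (range (6 ^ N)) (fun W : ℕ => y0 + W * ω)) l‖ ≤ 1 / (6 ^ N * (2 * ε)) := by
  unfold hat
  rw [integral_unif, card_range]
  have h1 : ∑ W ∈ range (6 ^ N), e (l * (y0 + W * ω)) =
      e (l * (y0 - ω)) * ∑ m ∈ Finset.Icc (1 : ℕ) (6 ^ N), e (m * (l * ω)) := by
    rw [Pool.Agent.Y933.KD.sum_Icc_range (fun m : ℕ => e (m * (l * ω))), mul_sum]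
    refine sum_congr rfl fun j _ => ?_
    rw [← e_add]
    congr 1
    push_cast
    ring
  rw [h1, norm_mul, norm_mul, Pool.Agent.Y933.KD.norm_e, one_mul]
  have h2 := sum_e_le (6 ^ N) hε h
  have h3 : ‖(1 / ((6 ^ N : ℕ) : ℂ))‖ = 1 / 6 ^ N := by
    rw [norm_div, norm_one]
    congr 1
    push_cast
    rw [norm_pow]
    norm_num
  rw [h3]
  calc 1 / (6 : ℝ) ^ N * ‖∑ m ∈ Finset.Icc (1 : ℕ) (6 ^ N), e (m * (l * ω))‖ ≤ 1 / 6 ^ N * (1 / (2 * ε)) := by
        gcongr
    _ = 1 / (6 ^ N * (2 * ε)) := by rw [one_div_mul_one_div]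

open Classical in
/-- **the law of the boxes** -/
theorem box_law (k A : ℕ) (δ : ℝ) (hδ : 0 < δ) : ∃ κ c C : ℝ, 0 < κ ∧ 0 < c ∧
    ∀ (N : ℕ) (y : Conf) (s : ℤ) (L : ℕ) (n : Fin k → ℕ) (i : Fin k → ℤ), (L : ℝ) ≤ κ * N →
    (∀ j, n j ≤ A * N ∧ s - n j * kap + δ * N ≤ i j ∧ (i j : ℝ) ≤ s + N + n j - δ * N) →
    ∀ S : Set (Fin k → Fin L → Fin L → Fin 6),
    |(((Finset.univ : Finset (Fin N → Fin 6)).filter (fun v => boxes L n i (put y s v) ∈ S)).card : ℝ) /
      6 ^ N - bern.real {x | boxes L n i x ∈ S}| ≤ C * exp (-(c * N)) := by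
  have hl6 : (0 : ℝ) < log 6 := Real.log_pos (by norm_num)
  set δ1 : ℝ := min δ 1 with hδ1
  have hδ10 : 0 < δ1 := lt_min hδ one_pos
  have hδ1a : δ1 ≤ δ := min_le_left _ _
  have hδ1b : δ1 ≤ 1 := min_le_right _ _
  set δ2 : ℝ := δ1 / 2 with hδ2
  have hδ20 : 0 < δ2 := by positivity
  obtain ⟨η1, hη1, N0, hfar⟩ := cone_far k A δ2 hδ20 (by rw [hδ2]; linarith)
  set η : ℝ := min η1 (δ2 / 2 * log 6) with hη
  have hη0 : 0 < η := lt_min hη1 (by positivity)
  have hηa : η ≤ η1 := min_le_left _ _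
  have hηb : η ≤ δ2 / 2 * log 6 := min_le_right _ _
  obtain ⟨δ', hδ', C, hC, hpow⟩ := power_q k η hη0
  have hk0 : (0 : ℝ) ≤ k := Nat.cast_nonneg k
  set κ : ℝ := min δ2 (δ' / (6 * k * log 6 + 1)) with hκ
  have hκ0 : 0 < κ := lt_min hδ20 (by positivity)
  have hκa : κ ≤ δ2 := min_le_left _ _
  have hκb : 3 * k * κ * log 6 ≤ δ' / 2 := by
    have h1 : κ ≤ δ' / (6 * k * log 6 + 1) := min_le_right _ _
    have h2 : 3 * k * κ * log 6 ≤ 3 * k * (δ' / (6 * k * log 6 + 1)) * log 6 := by gcongr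
    refine h2.trans ?_
    rw [show 3 * (k : ℝ) * (δ' / (6 * k * log 6 + 1)) * log 6 =
      δ' * (3 * k * log 6) / (6 * k * log 6 + 1) by ring]
    rw [div_le_iff₀ (by positivity)]
    nlinarith
  refine ⟨κ, δ' / 2, max C (exp (δ' / 2 * N0)), hκ0, by positivity, ?_⟩
  intro N y s L n i hL hcone S
  have hmaxC : C ≤ max C (exp (δ' / 2 * N0)) := le_max_left _ _
  have hmaxE : exp (δ' / 2 * N0) ≤ max C (exp (δ' / 2 * N0)) := le_max_right _ _
  have h6N : (0 : ℝ) < (6 : ℝ) ^ N := by positivity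
  rcases lt_or_ge N N0 with hlt | hge
  · -- trivial bound
    have h1 : |(((Finset.univ : Finset (Fin N → Fin 6)).filter
        (fun v => boxes L n i (put y s v) ∈ S)).card : ℝ) /
        6 ^ N - bern.real {x | boxes L n i x ∈ S}| ≤ 1 := by
      have h2 : (((Finset.univ : Finset (Fin N → Fin 6)).filter
        (fun v => boxes L n i (put y s v) ∈ S)).card : ℝ) ≤ 6 ^ N := by
        have h3 : ((Finset.univ : Finset (Fin N → Fin 6)).filter
          (fun v => boxes L n i (put y s v) ∈ S)).card ≤ 6 ^ N := by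
          refine (card_filter_le _ _).trans ?_
          rw [card_univ, Fintype.card_fun, Fintype.card_fin, Fintype.card_fin]
        exact_mod_cast h3
      have h3 : (((Finset.univ : Finset (Fin N → Fin 6)).filter
        (fun v => boxes L n i (put y s v) ∈ S)).card : ℝ) / 6 ^ N ≤ 1 := by
        rw [div_le_one h6N]; exact h2
      have h4 : 0 ≤ (((Finset.univ : Finset (Fin N → Fin 6)).filter
        (fun v => boxes L n i (put y s v) ∈ S)).card : ℝ) / 6 ^ N := by positivity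
      have h5 : bern.real {x | boxes L n i x ∈ S} ≤ 1 := measureReal_le_one
      have h6 : 0 ≤ bern.real {x | boxes L n i x ∈ S} := measureReal_nonneg
      rw [abs_le]
      constructor <;> linarith
    refine h1.trans ?_
    have h2 : (1 : ℝ) ≤ exp (δ' / 2 * N0) * exp (-(δ' / 2 * N)) := by
      rw [← exp_add, Real.one_le_exp_iff]
      have : (N : ℝ) ≤ N0 := by exact_mod_cast hlt.le
      nlinarith
    calc (1 : ℝ) ≤ exp (δ' / 2 * N0) * exp (-(δ' / 2 * N)) := h2
      _ ≤ _ := by gcongr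
  -- the main case
  obtain ⟨p, hp⟩ : ∃ p : ℤ, p = s - 1 + N := ⟨_, rfl⟩
  obtain ⟨E, hE⟩ : ∃ E : ℕ, E = EE A N := ⟨_, rfl⟩
  obtain ⟨s0, hs0⟩ : ∃ s0 : ℤ, s0 = p - E := ⟨_, rfl⟩
  obtain ⟨t, ht⟩ : ∃ t : Fin k → ℤ, t = fun j => i j - L - 1 - p := ⟨_, rfl⟩
  have htj : ∀ j, t j = i j - L - 1 - p := fun j => by rw [ht]
  have hN0 : (0 : ℝ) ≤ N := Nat.cast_nonneg N
  have hL2 : (L : ℝ) ≤ δ2 * N := hL.trans (by gcongr)
  have hin : ∀ j, InCone A N δ2 (n j) (t j) := by
    intro j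
    obtain ⟨h1, h2, h3⟩ := hcone j
    have h4 : δ1 * N ≤ δ * N := by gcongr
    have h5 : δ2 * N + δ2 * N = δ1 * N := by rw [hδ2]; ring
    have h6 : (0 : ℝ) ≤ L := Nat.cast_nonneg L
    refine ⟨h1, ?_, ?_⟩
    · rw [htj, hp]
      push_cast
      linarith
    · rw [htj, hp]
      push_cast
      nlinarith
  have hleft : ∀ j, s0 + 1 ≤ i j - L - n j := by
    intro j
    have h1 := cone_b hδ20 (hin j)
    rw [htj, ← hE] at h1
    omega
  obtain ⟨q, hq⟩ : ∃ q : Fin k → ℤ, q = fun j => qq A N (n j) (t j) := ⟨_, rfl⟩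
  have hqj : ∀ j, q j = qq A N (n j) (t j) := fun j => by rw [hq]
  have hq0 : ∀ j, q j ≠ 0 := fun j => by rw [hqj]; exact (qq_pos _ _ _ _).ne'
  have hqv : ∀ j, ((q j : ℤ) : ℝ) = (6 : ℝ) ^ (i j - L - 1) * (3 / 2) ^ n j * 6 ^ (-s0) := by
    intro j
    rw [hqj, qq_val hδ20 (hin j), ← hE, htj, hs0]
    have e1 : (6 : ℝ) ^ (i j - L - 1 - p) * (6 : ℝ) ^ E = (6 : ℝ) ^ (i j - L - 1) * 6 ^ (-(p - E)) := by
      rw [← zpow_natCast, ← zpow_add₀ (by norm_num), ← zpow_add₀ (by norm_num)]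
      congr 1
      ring
    linear_combination (3 / 2 : ℝ) ^ n j * e1
  -- the set of configurations
  obtain ⟨B, hB⟩ : ∃ B : Set Conf, B = {x | boxes L n i x ∈ S} := ⟨_, rfl⟩
  obtain ⟨T, hT1, hT2⟩ : ∃ T : ℕ, (∀ j, i j + 2 * L + n j ≤ s0 + T) ∧ s + N ≤ s0 + T := by
    refine ⟨∑ j, (i j + 2 * L + n j - s0).toNat + (s + N - s0).toNat, fun j => ?_, ?_⟩
    · have h1 : (i j + 2 * L + n j - s0).toNat ≤ ∑ j, (i j + 2 * L + n j - s0).toNat :=
        Finset.single_le_sum (f := fun j => (i j + 2 * L + n j - s0).toNat)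
          (fun _ _ => Nat.zero_le _) (mem_univ j)
      omega
    · omega
  have hdep : DepOn s0 T B := by
    intro x x' hxx
    have h1 : boxes L n i x = boxes L n i x' := by
      funext j a b
      unfold boxes
      have ha := a.2
      have hb := b.2
      have h2 := hleft j
      have h3 := hT1 j
      refine iter_local (n j + a) (a := i j + b) (b := i j + b) (fun l hl1 hl2 => ?_) _ le_rfl le_rfl
      push_cast at hl1 hl2
      exact hxx l (by omega) (by omega)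
    rw [hB]
    simp only [Set.mem_ofPred_eq]
    rw [h1]
  -- the union of the elementary events
  set M : ℕ := 3 * L with hM
  have h6M : (0 : ℝ) < (6 : ℝ) ^ M := by positivity
  set I : (Fin k → ℕ) → Set ℝ := fun w => EvQ q (fun j => (w j : ℝ) / 6 ^ M)
    (fun j => ((w j : ℝ) + 1) / 6 ^ M) with hI
  obtain ⟨V, hV⟩ : ∃ V : Finset (Fin k → ℕ), V = (Fintype.piFinset (fun _ : Fin k => range (6 ^ M))).filter
    (fun w => ∃ x, codes L n i x = w ∧ x ∈ B) := ⟨_, rfl⟩
  obtain ⟨U, hU⟩ : ∃ U : Set ℝ, U = ⋃ w ∈ V, I w := ⟨_, rfl⟩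
  have hVcard : (V.card : ℝ) ≤ ((6 : ℝ) ^ M) ^ k := by
    have h1 : V.card ≤ (6 ^ M) ^ k := by
      rw [hV]
      refine (card_filter_le _ _).trans ?_
      rw [Fintype.card_piFinset]
      simp
    exact_mod_cast h1
  have hcode : ∀ z : ℝ, 0 ≤ z → ∀ w : Fin k → ℕ, (∀ j, w j < 6 ^ M) →
      (z ∈ I w ↔ codes L n i (dg (z * 6 ^ (-s0))) = w) := by
    intro z hz w hw
    have hβ : 0 ≤ z * (6 : ℝ) ^ (-s0) := by positivity
    have h1 : ∀ j, (codes L n i (dg (z * 6 ^ (-s0))) j = w j ↔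
        (w j : ℝ) / 6 ^ M ≤ Int.fract ((q j : ℝ) * z) ∧
          Int.fract ((q j : ℝ) * z) < ((w j : ℝ) + 1) / 6 ^ M) := by
      intro j
      unfold codes
      rw [← hM, rd_rep (by positivity) (rep_iter hβ (rep_dg _) (n j)) _ M (w j) (hw j)]
      have e1 : (6 : ℝ) ^ (i j - L - 1) * ((3 / 2) ^ n j * (z * 6 ^ (-s0))) = q j * z := by
        rw [hqv]
        ring
      rw [e1]
    rw [hI]
    constructor
    · intro h2
      funext j
      exact (h1 j).2 (h2 j)
    · intro h2 j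
      exact (h1 j).1 (congrFun h2 j)
  have hUB : ∀ z : ℝ, 0 ≤ z → (z ∈ U ↔ dg (z * 6 ^ (-s0)) ∈ B) := by
    intro z hz
    rw [hU]
    simp only [Set.mem_iUnion]
    constructor
    · rintro ⟨w, hw, hzw⟩
      rw [hV, mem_filter, Fintype.mem_piFinset] at hw
      obtain ⟨hw1, x, hx1, hx2⟩ := hw
      have h1 := (hcode z hz w (fun j => mem_range.1 (hw1 j))).1 hzw
      rw [hB] at hx2 ⊢
      have h2 := boxes_of_codes (h1.trans hx1.symm)
      simp only [Set.mem_ofPred_eq] at hx2 ⊢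
      rw [h2]
      exact hx2
    · intro h1
      refine ⟨codes L n i (dg (z * 6 ^ (-s0))), ?_, ?_⟩
      · rw [hV, mem_filter, Fintype.mem_piFinset]
        refine ⟨fun j => ?_, _, rfl, h1⟩
        rw [mem_range]
        exact rd_lt _ _ _
      · exact (hcode z hz _ (fun j => rd_lt _ _ _)).2 rfl
  -- additivity
  have hadd : ∀ (P : Measure ℝ) [IsProbabilityMeasure P], P.real U = ∑ w ∈ V, P.real (I w) := by
    intro P _
    rw [hU, measureReal_biUnion_finset]
    · intro a ha b hb hab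
      rw [Function.onFun, Set.disjoint_left]
      intro z hza hzb
      apply hab
      funext j
      have h1 := hza j
      have h2 := hzb j
      obtain ⟨h3, h4⟩ := h1
      obtain ⟨h5, h6⟩ := h2
      rw [div_le_iff₀ h6M] at h3 h5
      rw [lt_div_iff₀ h6M] at h4 h6
      have h7 : (a j : ℝ) < b j + 1 := by linarith
      have h8 : (b j : ℝ) < a j + 1 := by linarith
      have h9 : a j < b j + 1 := by exact_mod_cast h7
      have h10 : b j < a j + 1 := by exact_mod_cast h8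
      omega
    · intro w _
      exact measurableSet_EvQ _ _ _
  have hUmeas : MeasurableSet U := by
    rw [hU]
    exact Finset.measurableSet_biUnion _ fun w _ => measurableSet_EvQ _ _ _
  -- the finite configuration
  obtain ⟨x0, hx0⟩ : ∃ x0 : Conf, x0 = fun l => if (s ≤ l ∧ l < s + N) ∨ l ≤ s0 ∨ s0 + T < l then 0 else y l :=
    ⟨_, rfl⟩
  have hfin : IsFin x0 := by
    refine (Set.finite_Icc (s0 + 1) (s0 + T)).subset ?_
    intro l hl
    simp only [Set.mem_ofPred_eq] at hl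
    rw [hx0] at hl
    simp only at hl
    split_ifs at hl with h1
    · exact absurd rfl hl
    · rw [Set.mem_Icc]
      omega
  obtain ⟨m0, k0, hrep, _, _⟩ := exists_rep hfin
  obtain ⟨α0, hα0⟩ : ∃ α0 : ℝ, α0 = (m0 : ℝ) / 6 ^ k0 := ⟨_, rfl⟩
  have hα00 : 0 ≤ α0 := by rw [hα0]; positivity
  rw [← hα0] at hrep
  have hrepW : ∀ W < 6 ^ N, Rep (putW x0 s N W) (α0 + W * 6 ^ (-p)) := by
    intro W hW
    rw [hp]
    refine rep_put hα00 hrep s N (fun l h1 h2 => ?_) W hW
    rw [hx0]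
    simp only
    rw [if_pos (Or.inl ⟨h1, h2⟩)]
  have hputB : ∀ W, putW x0 s N W ∈ B ↔ putW y s N W ∈ B := by
    intro W
    refine hdep _ _ fun l h1 h2 => ?_
    unfold putW
    split_ifs with h3
    · rfl
    · rw [hx0]
      simp only
      rw [if_neg]
      omega
  -- the measure
  obtain ⟨Z, hZ⟩ : ∃ Z : ℕ → ℝ, Z = fun W : ℕ => α0 * 6 ^ s0 + (W : ℝ) * (1 / 6 ^ E) := ⟨_, rfl⟩
  have hZ0 : ∀ W, 0 ≤ Z W := fun W => by rw [hZ]; positivity
  have hZval : ∀ W : ℕ, Z W * 6 ^ (-s0) = α0 + W * 6 ^ (-p) := by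
    intro W
    rw [hZ]
    simp only
    have e1 : (6 : ℝ) ^ s0 * 6 ^ (-s0) = 1 := by
      rw [← zpow_add₀ (by norm_num)]; simp
    have e2 : (1 / (6 : ℝ) ^ E) * 6 ^ (-s0) = 6 ^ (-p) := by
      rw [hs0, one_div, ← zpow_natCast, ← zpow_neg, ← zpow_add₀ (by norm_num)]
      congr 1
      ring
    calc (α0 * (6 : ℝ) ^ s0 + W * (1 / 6 ^ E)) * 6 ^ (-s0) =
          α0 * ((6 : ℝ) ^ s0 * 6 ^ (-s0)) + W * ((1 / 6 ^ E) * 6 ^ (-s0)) := by ring
      _ = _ := by rw [e1, e2, mul_one]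
  have hne : (range (6 ^ N)).Nonempty := by rw [nonempty_range_iff]; positivity
  have hprob := unif_prob hne Z
  have hPU : (unif (range (6 ^ N)) Z).real U =
      (((Finset.univ : Finset (Fin N → Fin 6)).filter (fun v => boxes L n i (put y s v) ∈ S)).card : ℝ) /
        6 ^ N := by
    rw [real_unif _ _ hUmeas, card_range]
    push_cast
    congr 2
    have h1 := card_put y s N B
    have h2 : (Finset.univ : Finset (Fin N → Fin 6)).filter (fun v => boxes L n i (put y s v) ∈ S) =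
        (Finset.univ : Finset (Fin N → Fin 6)).filter (fun v => put y s v ∈ B) := by
      rw [hB]
      rfl
    rw [h2, h1]
    congr 1
    refine filter_congr fun W hW => ?_
    rw [hUB _ (hZ0 W), hZval, ← rep_eq (hrepW W (mem_range.1 hW)), hputB]
  have hLU : Leb.real U = bern.real {x | boxes L n i x ∈ S} := by
    rw [leb_dep hdep hUB, ← bern_dep hdep, hB]
  rw [← hPU, ← hLU, hadd, hadd, ← sum_sub_distrib]
  refine (abs_sum_le_sum_abs _ _).trans ?_
  have hX1 : (1 : ℝ) ≤ exp N := by rw [Real.one_le_exp_iff]; exact hN0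
  have hXpow : ∀ a : ℝ, (exp (N : ℝ)) ^ a = exp (a * N) := fun a => by
    rw [← Real.exp_mul, mul_comm]
  have hhat : ∀ h : Fin k → ℤ, (∀ j, |(h j : ℝ)| ≤ (exp (N : ℝ)) ^ η) → ∑ j, h j * q j ≠ 0 →
      ‖hat (unif (range (6 ^ N)) Z) (∑ j, h j * q j)‖ ≤ (exp (N : ℝ)) ^ (-η) := by
    intro h hh hne'
    have h1 : ∀ P : ℤ, exp (-((1 - δ2 / 2) * N * log 6)) ≤
        |((∑ j, h j * q j : ℤ) : ℝ) * (1 / 6 ^ E) - P| := by
      intro P
      have h2 := hfar N hge n t h P hin (fun j => (hh j).trans (by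
        rw [hXpow]
        apply exp_le_exp.2
        gcongr)) (by rw [hq] at hne'; exact hne')
      rw [← hE] at h2
      rw [hq, mul_one_div]
      exact h2
    have h3 := hat_le (N := N) (y0 := α0 * 6 ^ s0) (∑ j, h j * q j) (exp_pos _) h1
    rw [hZ]
    refine h3.trans ?_
    rw [hXpow, six_pow]
    have h4 : exp (N * log 6) * (2 * exp (-((1 - δ2 / 2) * N * log 6))) =
        2 * exp (δ2 / 2 * log 6 * N) := by
      rw [mul_left_comm, ← exp_add]
      congr 2
      ring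
    rw [h4, show -η * (N : ℝ) = -(η * N) by ring, exp_neg, ← one_div]
    apply one_div_le_one_div_of_le (exp_pos _)
    calc exp (η * N) ≤ exp (δ2 / 2 * log 6 * N) := by
          apply exp_le_exp.2
          gcongr
      _ ≤ 2 * exp (δ2 / 2 * log 6 * N) := by
          have := exp_pos (δ2 / 2 * log 6 * N)
          linarith
  have hterm : ∀ w ∈ V, |(unif (range (6 ^ N)) Z).real (I w) - Leb.real (I w)| ≤
      C * exp (-δ' * N) := by
    intro w hw
    rw [hV, mem_filter, Fintype.mem_piFinset] at hw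
    have h1 := hpow (exp N) hX1 (unif (range (6 ^ N)) Z) q hq0 hhat (fun j => (w j : ℝ) / 6 ^ M)
      (fun j => ((w j : ℝ) + 1) / 6 ^ M) (fun j => by positivity) (fun j => by
        rw [div_le_one h6M]
        have := mem_range.1 (hw.1 j)
        exact_mod_cast this)
    rw [hXpow] at h1
    exact h1
  refine (sum_le_sum hterm).trans ?_
  rw [sum_const, nsmul_eq_mul]
  have h7 : ((6 : ℝ) ^ M) ^ k ≤ exp (δ' / 2 * N) := by
    rw [← pow_mul, six_pow]
    apply exp_le_exp.2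
    push_cast
    rw [hM]
    push_cast
    calc (3 * (L : ℝ) * k) * log 6 ≤ (3 * (κ * N) * k) * log 6 := by gcongr
      _ = (3 * k * κ * log 6) * N := by ring
      _ ≤ δ' / 2 * N := by gcongr
  calc (V.card : ℝ) * (C * exp (-δ' * N)) ≤ exp (δ' / 2 * N) * (C * exp (-δ' * N)) := by
        gcongr
        exact hVcard.trans h7
    _ = C * exp (-(δ' / 2 * N)) := by
        rw [mul_left_comm, ← exp_add]
        congr 2
        ring
    _ ≤ _ := by gcongr

end Pool.Agent.Y933.KH
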