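import Mathlib
import Pool.Agent.H429R2.Auto

/-!
# The uniform Bernoulli measure on the configurations (helper933)
-/

set_option autoImplicit false

namespace Pool.Agent.Y933.KH

open Finset MeasureTheory
open Pool.Agent.H429R2.Auto

/-- the uniform Bernoulli measure: the cells are independent and uniformly distributed -/
noncomputable def bern : Measure Conf :=
  Measure.infinitePi fun _ : ℤ => (PMF.uniformOfFintype (Fin 6)).toMeasure

instance : IsProbabilityMeasure bern := by unfold bern; infer_instance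

/-- the base-6 digits of a real number -/
noncomputable def dg (β : ℝ) : Conf := fun i => ⟨⌊(6 : ℝ) ^ i * β⌋₊ % 6, Nat.mod_lt _ (by norm_num)⟩

lemma rep_dg (β : ℝ) : Rep (dg β) β := fun _ => rfl

lemma rep_eq {x : Conf} {β : ℝ} (h : Rep x β) : x = dg β := by
  funext i
  exact Fin.ext (h i)

/-- a set of configurations depends only on the cells in `(s, s + T]` -/
def DepOn (s : ℤ) (T : ℕ) (B : Set Conf) : Prop :=
  ∀ x x' : Conf, (∀ i, s < i → i ≤ s + T → x i = x' i) → (x ∈ B ↔ x' ∈ B)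

/-- the configuration with the number `W` written in the cells `(s, s + T]` -/
noncomputable def wr (s : ℤ) (T W : ℕ) : Conf := dg ((W : ℝ) * 6 ^ (-(s + T)))

lemma wr_cell (s : ℤ) (T W r : ℕ) (hr : r < T) : ((wr s T W (s + T - r) : Fin 6) : ℕ) = W / 6 ^ r % 6 := by
  unfold wr dg
  simp only
  have e1 : (6 : ℝ) ^ (s + T - r : ℤ) * ((W : ℝ) * 6 ^ (-(s + T))) = (W : ℝ) / ((6 ^ r : ℕ) : ℝ) := by
    rw [show (s + T - r : ℤ) = (s + T) + (-(r : ℤ)) by ring, zpow_add₀ (by norm_num)]
    have h1 : (6 : ℝ) ^ (s + T : ℤ) * 6 ^ (-(s + T) : ℤ) = 1 := by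
      rw [← zpow_add₀ (by norm_num)]
      simp
    have h2 : (6 : ℝ) ^ (-(r : ℤ)) = 1 / ((6 ^ r : ℕ) : ℝ) := by
      rw [zpow_neg, zpow_natCast]
      push_cast
      rw [one_div]
    rw [h2]
    calc (6 : ℝ) ^ (s + T : ℤ) * (1 / ((6 ^ r : ℕ) : ℝ)) * ((W : ℝ) * 6 ^ (-(s + T) : ℤ)) =
          ((6 : ℝ) ^ (s + T : ℤ) * 6 ^ (-(s + T) : ℤ)) * ((W : ℝ) / ((6 ^ r : ℕ) : ℝ)) := by ring
      _ = (W : ℝ) / ((6 ^ r : ℕ) : ℝ) := by rw [h1, one_mul]
  rw [e1, Nat.floor_div_eq_div]

/-- the number written in the cells `(s, s + T]` -/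
def rd (s : ℤ) (T : ℕ) (x : Conf) : ℕ := ∑ r ∈ Finset.range T, (x (s + T - r) : ℕ) * 6 ^ r

lemma rd_lt (s : ℤ) (T : ℕ) (x : Conf) : rd s T x < 6 ^ T := sum_lt T fun r => x (s + T - r)

lemma rd_digit (s : ℤ) (T : ℕ) (x : Conf) (r : ℕ) (hr : r < T) :
    rd s T x / 6 ^ r % 6 = (x (s + T - r) : ℕ) := digits_sum T (fun r => x (s + T - r)) r hr

lemma agree_wr (s : ℤ) (T W : ℕ) (hW : W < 6 ^ T) (x : Conf) :
    (∀ i, s < i → i ≤ s + T → x i = wr s T W i) ↔ rd s T x = W := by
  constructor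
  · intro h
    apply eq_of_digits T _ _ (rd_lt s T x) hW
    intro r hr
    rw [rd_digit s T x r hr, h _ (by omega) (by omega), wr_cell s T W r hr]
  · rintro rfl i h1 h2
    obtain ⟨r, hr⟩ := Int.eq_ofNat_of_zero_le (sub_nonneg.2 h2)
    have hi : i = s + T - r := by omega
    have hrT : r < T := by omega
    rw [hi]
    apply Fin.ext
    rw [wr_cell s T _ r hrT, rd_digit s T x r hrT]

lemma bern_cyl (s : ℤ) (T : ℕ) (W : ℕ) (hW : W < 6 ^ T) :
    bern.real {x | rd s T x = W} = 1 / 6 ^ T := by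
  have h1 : {x : Conf | rd s T x = W} =
      Set.pi ((Finset.Ioc s (s + T) : Finset ℤ) : Set ℤ) (fun i => {wr s T W i}) := by
    ext x
    rw [Set.mem_pi]
    simp only [Set.mem_ofPred_eq, Finset.coe_Ioc, Set.mem_Ioc, Set.mem_singleton_iff]
    rw [← agree_wr s T W hW x]
    exact ⟨fun h i hi => h i hi.1 hi.2, fun h i h1 h2 => h i ⟨h1, h2⟩⟩
  rw [h1]
  unfold Measure.real bern
  rw [Measure.infinitePi_pi]
  · have h2 : ∀ a : Fin 6, (PMF.uniformOfFintype (Fin 6)).toMeasure {a} = (1 : ENNReal) / 6 := by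
      intro a
      rw [PMF.toMeasure_apply_singleton _ _ (measurableSet_singleton a)]
      simp
    simp only [h2, Finset.prod_const, Int.card_Ioc]
    rw [show (s + T - s).toNat = T by omega, ENNReal.toReal_pow, ENNReal.toReal_div]
    simp
  · intro i _
    exact measurableSet_singleton _

lemma measurable_rd (s : ℤ) (T : ℕ) : Measurable (rd s T) := by
  unfold rd
  refine Finset.measurable_sum _ fun r _ => ?_
  have h1 : Measurable (fun x : Conf => x (s + T - r)) := measurable_pi_apply _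
  exact (measurable_from_top (f := fun a : Fin 6 => (a : ℕ) * 6 ^ r)).comp h1

open Classical in
/-- the measure of a set which depends on finitely many cells -/
theorem bern_dep {s : ℤ} {T : ℕ} {B : Set Conf} (hB : DepOn s T B) :
    bern.real B = (((range (6 ^ T)).filter (fun W => wr s T W ∈ B)).card : ℝ) / 6 ^ T := by
  have h1 : B = ⋃ W ∈ (range (6 ^ T)).filter (fun W => wr s T W ∈ B), {x | rd s T x = W} := by
    ext x
    simp only [Set.mem_iUnion, Finset.mem_filter, Finset.mem_range, Set.mem_ofPred_eq]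
    have h2 := (agree_wr s T (rd s T x) (rd_lt s T x) x).2 rfl
    constructor
    · intro hx
      exact ⟨rd s T x, ⟨rd_lt s T x, (hB x _ h2).1 hx⟩, rfl⟩
    · rintro ⟨W, ⟨_, h3⟩, h4⟩
      rw [← h4] at h3
      exact (hB x _ h2).2 h3
  conv_lhs => rw [h1]
  rw [measureReal_biUnion_finset]
  · rw [sum_congr rfl fun W hW => bern_cyl s T W (mem_range.1 (mem_filter.1 hW).1), sum_const,
      nsmul_eq_mul]
    ring
  · intro a _ b _ hab
    rw [Function.onFun, Set.disjoint_left]
    intro x h2 h3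
    exact hab (h2.symm.trans h3)
  · intro W _
    exact measurable_rd s T (measurableSet_singleton W)

end Pool.Agent.Y933.KH
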