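import Mathlib
import Pool.Agent.TH932.S2.Pw

/-!
# The automaton of multiplication by `3 / 2`: the diophantine input (helper933)
-/

set_option autoImplicit false

namespace Pool.Agent.Y933.KH

open Finset Real

/-- the slope of the left edge of the light cone -/
noncomputable def kap : ℝ := log (3 / 2) / log 6

lemma kap_nonneg : 0 ≤ kap := by
  unfold kap
  have h1 : 0 < log (3 / 2 : ℝ) := Real.log_pos (by norm_num)
  have h2 : 0 < log (6 : ℝ) := Real.log_pos (by norm_num)
  positivity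

lemma kap_le_one : kap ≤ 1 := by
  unfold kap
  have h2 : 0 < log (6 : ℝ) := Real.log_pos (by norm_num)
  rw [div_le_one h2]
  exact Real.log_le_log (by norm_num) (by norm_num)

/-- the height of the common denominator -/
def EE (A N : ℕ) : ℕ := (2 * A + 3) * N

/-- the multiplier of the cell at time `n` and relative position `t` -/
def qq (A N n : ℕ) (t : ℤ) : ℤ := 3 ^ (t + n + EE A N).toNat * 2 ^ (t - n + EE A N).toNat

lemma qq_pos (A N n : ℕ) (t : ℤ) : 0 < qq A N n t := by unfold qq; positivity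

/-- the cell `(n, t)` lies in the reduced light cone -/
def InCone (A N : ℕ) (δ : ℝ) (n : ℕ) (t : ℤ) : Prop :=
  n ≤ A * N ∧ -(N : ℝ) - n * kap + δ * N ≤ t ∧ (t : ℝ) ≤ n - δ * N

lemma cone_b {A N n : ℕ} {δ : ℝ} (hδ : 0 < δ) {t : ℤ} (h : InCone A N δ n t) :
    0 ≤ t - n + EE A N := by
  obtain ⟨h1, h2, _⟩ := h
  have h3 : (n : ℝ) ≤ A * N := by exact_mod_cast h1
  have h4 : (0 : ℝ) ≤ n := Nat.cast_nonneg n
  have h5 : (0 : ℝ) ≤ N := Nat.cast_nonneg N
  have h6 : (n : ℝ) * kap ≤ n := by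
    have := mul_le_mul_of_nonneg_left kap_le_one h4
    linarith
  have h7 : (0 : ℝ) ≤ δ * N := by positivity
  have h8 : (0 : ℝ) ≤ ((t - n + EE A N : ℤ) : ℝ) := by
    unfold EE
    push_cast
    nlinarith
  exact_mod_cast h8

lemma cone_a {A N n : ℕ} {δ : ℝ} (hδ : 0 < δ) {t : ℤ} (h : InCone A N δ n t) :
    0 ≤ t + n + EE A N := by
  have := cone_b hδ h
  omega

lemma qq_val {A N n : ℕ} {δ : ℝ} (hδ : 0 < δ) {t : ℤ} (h : InCone A N δ n t) :
    ((qq A N n t : ℤ) : ℝ) = (6 : ℝ) ^ t * (3 / 2) ^ n * 6 ^ EE A N := by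
  have h1 := cone_a hδ h
  have h2 := cone_b hδ h
  unfold qq
  push_cast
  have e1 : ((3 : ℝ) ^ (t + n + EE A N).toNat) = (3 : ℝ) ^ (t + n + EE A N : ℤ) := by
    rw [← zpow_natCast, Int.toNat_of_nonneg h1]
  have e2 : ((2 : ℝ) ^ (t - n + EE A N).toNat) = (2 : ℝ) ^ (t - n + EE A N : ℤ) := by
    rw [← zpow_natCast, Int.toNat_of_nonneg h2]
  rw [e1, e2, zpow_add₀ (by norm_num), zpow_add₀ (by norm_num), zpow_add₀ (by norm_num),
    zpow_sub₀ (by norm_num), zpow_natCast, zpow_natCast, zpow_natCast, zpow_natCast]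
  have e3 : (6 : ℝ) = 3 * 2 := by norm_num
  rw [e3, mul_zpow, mul_pow, div_pow]
  field_simp

lemma six_pow (n : ℕ) : (6 : ℝ) ^ n = exp (n * log 6) := by
  rw [mul_comm, Real.exp_mul, Real.exp_log (by norm_num), Real.rpow_natCast]

lemma qq_exp {A N n : ℕ} {δ : ℝ} (hδ : 0 < δ) {t : ℤ} (h : InCone A N δ n t) :
    ((qq A N n t : ℤ) : ℝ) = exp ((t + n * kap + EE A N) * log 6) := by
  rw [qq_val hδ h]
  have h6 : (0 : ℝ) < log 6 := Real.log_pos (by norm_num)
  have e1 : (6 : ℝ) ^ t = exp (t * log 6) := by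
    rw [mul_comm, Real.exp_mul, Real.exp_log (by norm_num), Real.rpow_intCast]
  have e2 : (3 / 2 : ℝ) ^ n = exp (n * kap * log 6) := by
    have : (n : ℝ) * kap * log 6 = log (3 / 2) * n := by
      unfold kap
      field_simp
    rw [this, Real.exp_mul, Real.exp_log (by norm_num), Real.rpow_natCast]
  rw [e1, e2, six_pow, ← exp_add, ← exp_add]
  congr 1
  ring

/-- **sums of multipliers of cells in the cone are far from the multiples of `6 ^ E`** -/
theorem cone_far (k A : ℕ) (δ : ℝ) (hδ : 0 < δ) (hδ1 : δ ≤ 1) :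
    ∃ η : ℝ, 0 < η ∧ ∃ N0 : ℕ, ∀ N : ℕ, N0 ≤ N → ∀ (n : Fin k → ℕ) (t : Fin k → ℤ)
      (h : Fin k → ℤ) (P : ℤ), (∀ j, InCone A N δ (n j) (t j)) →
      (∀ j, |(h j : ℝ)| ≤ exp (η * N)) → ∑ j, h j * qq A N (n j) (t j) ≠ 0 →
      exp (-((1 - δ / 2) * N * log 6)) ≤
        |((∑ j, h j * qq A N (n j) (t j) : ℤ) : ℝ) / 6 ^ EE A N - P| := by
  have h6 : (0 : ℝ) < log 6 := Real.log_pos (by norm_num)
  have h2 : (0 : ℝ) < log 2 := Real.log_pos (by norm_num)
  have h64 : log 6 ≤ 3 * log 2 := by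
    rw [show (3 : ℝ) * log 2 = log (2 ^ 3) by rw [Real.log_pow]; norm_num]
    exact Real.log_le_log (by norm_num) (by norm_num)
  obtain ⟨η, hη, n0, hfin⟩ := Pool.Agent.TH932.S2.Pw.fin (p := 3) (q := 2) (by norm_num)
    (by norm_num) (by rw [Int.isCoprime_iff_gcd_eq_one]; decide) k (4 * A + 6)
    (δ / 4 * log 6) (by positivity)
  refine ⟨η, hη, n0, fun N hN n t h P hc hh hne => ?_⟩
  by_contra hcon
  push Not at hcon
  apply hne
  set E : ℕ := EE A N with hE
  have hER : (E : ℝ) = (2 * A + 3) * N := by rw [hE]; unfold EE; push_cast; ring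
  have hN0 : (0 : ℝ) ≤ N := Nat.cast_nonneg N
  have hA0 : (0 : ℝ) ≤ A := Nat.cast_nonneg A
  set T0 : ℤ := ∑ j, h j * qq A N (n j) (t j) with hS
  set x : ℤ := T0 - P * 6 ^ E with hx
  have h6E : (0 : ℝ) < (6 : ℝ) ^ E := by positivity
  have hxs : |(x : ℝ)| < exp (E * log 6 - (1 - δ / 2) * N * log 6) := by
    have e1 : (x : ℝ) = ((T0 : ℝ) / 6 ^ E - P) * 6 ^ E := by
      rw [hx]
      push_cast
      field_simp
    rw [e1, abs_mul, abs_of_pos h6E]
    calc |(T0 : ℝ) / 6 ^ E - P| * 6 ^ E < exp (-((1 - δ / 2) * N * log 6)) * 6 ^ E := by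
          exact mul_lt_mul_of_pos_right hcon h6E
      _ = exp (E * log 6 - (1 - δ / 2) * N * log 6) := by
          rw [six_pow, ← exp_add]
          congr 1
          ring
  have key := hfin N hN (fun j => (t j + n j + E).toNat) (fun j => (t j - n j + E).toNat) h x E E
    ?_ ?_ ?_ ?_ ?_ ?_
  · rw [hS]
    unfold qq
    rw [← key]
    rfl
  · intro j
    have c1 := cone_a hδ (hc j)
    have c2 := cone_b hδ (hc j)
    obtain ⟨d1, d2, d3⟩ := hc j
    have d4 : (n j : ℝ) ≤ A * N := by exact_mod_cast d1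
    have d5 : 0 ≤ δ * N := by positivity
    have e1 : (((t j + n j + E).toNat : ℕ) : ℝ) = t j + n j + E := by
      have : (((t j + n j + E).toNat : ℕ) : ℤ) = t j + n j + E := Int.toNat_of_nonneg c1
      exact_mod_cast this
    have e2 : (((t j - n j + E).toNat : ℕ) : ℝ) = t j - n j + E := by
      have : (((t j - n j + E).toNat : ℕ) : ℤ) = t j - n j + E := Int.toNat_of_nonneg c2
      exact_mod_cast this
    refine ⟨?_, ?_, hh j⟩
    · rw [e1, hER]
      nlinarith
    · rw [e2, hER]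
      nlinarith
  · rw [hER]
    nlinarith
  · rw [hER]
    nlinarith
  · refine ⟨P, ?_⟩
    have e1 : (∑ j, h j * (((3 : ℕ) : ℤ) ^ (t j + n j + E).toNat *
        ((2 : ℕ) : ℤ) ^ (t j - n j + E).toNat)) = T0 := by
      rw [hS]
      rfl
    rw [e1, hx]
    push_cast
    rw [← mul_pow]
    norm_num
    ring
  · push_cast
    rw [← mul_pow, show (3 : ℝ) * 2 = 6 by norm_num, six_pow]
    calc |(x : ℝ)| * exp (δ / 4 * log 6 * N) ≤
          exp (E * log 6 - (1 - δ / 2) * N * log 6) * exp (δ / 4 * log 6 * N) := by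
          gcongr
      _ = exp (E * log 6 - (1 - δ / 2) * N * log 6 + δ / 4 * log 6 * N) := by rw [exp_add]
      _ ≤ exp (E * log 6) := by
          apply exp_le_exp.2
          have : 0 ≤ (1 - δ / 2 - δ / 4) * (N * log 6) := by
            apply mul_nonneg (by linarith)
            positivity
          nlinarith
  · intro j _
    have c1 := cone_a hδ (hc j)
    have c2 := cone_b hδ (hc j)
    constructor
    · have e1 : ((3 : ℕ) : ℝ) ^ (t j + n j + E).toNat * ((2 : ℕ) : ℝ) ^ (t j - n j + E).toNat =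
          ((qq A N (n j) (t j) : ℤ) : ℝ) := by
        unfold qq
        push_cast
        rfl
      rw [e1, qq_exp hδ (hc j)]
      obtain ⟨d1, d2, d3⟩ := hc j
      calc |(x : ℝ)| * exp (δ / 4 * log 6 * N) ≤
            exp (E * log 6 - (1 - δ / 2) * N * log 6) * exp (δ / 4 * log 6 * N) := by
            gcongr
        _ = exp ((E - (1 - δ / 2) * N + δ / 4 * N) * log 6) := by
            rw [← exp_add]
            congr 1
            ring
        _ ≤ exp ((t j + n j * kap + EE A N) * log 6) := by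
            apply exp_le_exp.2
            apply mul_le_mul_of_nonneg_right _ h6.le
            rw [← hE]
            have : 0 ≤ δ * N := by positivity
            linarith
    · obtain ⟨d1, d2, d3⟩ := hc j
      have e2 : (((t j - n j + E).toNat : ℕ) : ℝ) = t j - n j + E := by
        have : (((t j - n j + E).toNat : ℕ) : ℤ) = t j - n j + E := Int.toNat_of_nonneg c2
        exact_mod_cast this
      rw [e2]
      push_cast
      have h3 : (t j : ℝ) - n j ≤ -(δ * N) := by linarith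
      have h4 : δ / 4 * log 6 * N ≤ δ * N * log 2 := by
        have : 0 ≤ δ * N := by positivity
        nlinarith
      nlinarith

end Pool.Agent.Y933.KH
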