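import Pool.Agent.Y933.KH.PowQ

/-!
# Large deviations for lacunary sequences of multipliers (helper933)
-/

set_option autoImplicit false

namespace Pool.Agent.Y933.KH

open Finset Real MeasureTheory
open Pool.Agent.Y933.KD

/-- trigonometric polynomials of degree at most `H` -/
def TQ (H : ℕ) (f : ℝ → ℝ) : Prop :=
  ∃ c : ℤ → ℂ, ∀ x, (f x : ℂ) = ∑ h ∈ Finset.Icc (-(H : ℤ)) H, c h * e (h * x)

lemma TQ.of_TP {H : ℕ} {f : ℝ → ℝ} (hf : TP H f) : TQ H f := by
  obtain ⟨c, _, h⟩ := hf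
  exact ⟨c, h⟩

lemma TQ.mono {H H' : ℕ} (h : H ≤ H') {f : ℝ → ℝ} (hf : TQ H f) : TQ H' f := by
  classical
  obtain ⟨c, hc⟩ := hf
  refine ⟨fun l => if l ∈ Finset.Icc (-(H : ℤ)) H then c l else 0, fun x => ?_⟩
  rw [hc x]
  have hsub : Finset.Icc (-(H : ℤ)) H ⊆ Finset.Icc (-(H' : ℤ)) H' := by
    intro l hl
    rw [Finset.mem_Icc] at hl ⊢
    omega
  rw [← Finset.sum_subset hsub (f := fun l => (if l ∈ Finset.Icc (-(H : ℤ)) H then c l else 0) *
    e (l * x))]
  · refine sum_congr rfl fun l hl => ?_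
    rw [if_pos hl]
  · intro l _ hl
    rw [if_neg hl, zero_mul]

lemma TQ.add {H : ℕ} {f g : ℝ → ℝ} (hf : TQ H f) (hg : TQ H g) : TQ H (fun x => f x + g x) := by
  obtain ⟨c, hc⟩ := hf
  obtain ⟨d, hd⟩ := hg
  refine ⟨fun l => c l + d l, fun x => ?_⟩
  push_cast
  rw [hc x, hd x, ← sum_add_distrib]
  exact sum_congr rfl fun l _ => by ring

lemma TQ.const_mul {H : ℕ} {f : ℝ → ℝ} (a : ℝ) (hf : TQ H f) : TQ H (fun x => a * f x) := by
  obtain ⟨c, hc⟩ := hf
  refine ⟨fun l => a * c l, fun x => ?_⟩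
  push_cast
  rw [hc x, mul_sum]
  exact sum_congr rfl fun l _ => by ring

lemma TQ.const (H : ℕ) (a : ℝ) : TQ H (fun _ => a) := by
  classical
  refine ⟨fun l => if l = 0 then (a : ℂ) else 0, fun x => ?_⟩
  rw [Finset.sum_eq_single (0 : ℤ)]
  · simp [e_zero]
  · intro l _ hl
    show (if l = 0 then (a : ℂ) else 0) * e (l * x) = 0
    rw [if_neg hl, zero_mul]
  · intro h
    exfalso
    apply h
    rw [Finset.mem_Icc]
    omega

lemma TQ.sum {H : ℕ} {ι : Type*} (s : Finset ι) (f : ι → ℝ → ℝ) (hf : ∀ i ∈ s, TQ H (f i)) :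
    TQ H (fun x => ∑ i ∈ s, f i x) := by
  classical
  induction s using Finset.induction_on with
  | empty =>
    simp only [sum_empty]
    exact TQ.const H 0
  | insert a s ha ih =>
    have h1 := TQ.add (hf a (mem_insert_self _ _)) (ih fun i hi => hf i (mem_insert_of_mem hi))
    have h2 : (fun x => ∑ i ∈ insert a s, f i x) = fun x => f a x + ∑ i ∈ s, f i x := by
      funext x
      rw [sum_insert ha]
    rw [h2]
    exact h1

lemma hat_zero : hat Leb 0 = 1 := by
  unfold hat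
  simp [e_zero]

lemma int_TQ {H : ℕ} {f : ℝ → ℝ} {c : ℤ → ℂ}
    (hc : ∀ x, (f x : ℂ) = ∑ h ∈ Finset.Icc (-(H : ℤ)) H, c h * e (h * x)) {q : ℤ} (hq : q ≠ 0) :
    ((∫ x, f (q * x) ∂Leb : ℝ) : ℂ) = c 0 := by
  rw [← integral_complex_ofReal]
  simp only [hc]
  rw [integral_finsetSum]
  · have h1 : ∀ h ∈ Finset.Icc (-(H : ℤ)) H, ∫ x, c h * e (h * (q * x)) ∂Leb =
        c h * hat Leb (h * q) := by
      intro h _
      unfold hat
      rw [integral_const_mul]
      congr 1
      refine integral_congr_ae (Filter.Eventually.of_forall fun x => ?_)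
      simp only
      congr 1
      push_cast
      ring
    rw [sum_congr rfl h1, Finset.sum_eq_single (0 : ℤ)]
    · rw [zero_mul, hat_zero, mul_one]
    · intro h _ hh
      rw [hat_Leb _ (mul_ne_zero hh hq), mul_zero]
    · intro h
      exfalso
      apply h
      rw [Finset.mem_Icc]
      omega
  · intro h _
    refine Integrable.const_mul ?_ _
    have := integrable_e Leb ((h : ℝ) * q)
    refine this.congr (Filter.Eventually.of_forall fun x => ?_)
    simp only
    congr 1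
    ring

/-- the multipliers have no small relation -/
def NoRel {m : ℕ} (H : ℕ) (q : Fin m → ℤ) : Prop :=
  ∀ h : Fin m → ℤ, (∀ i, |h i| ≤ H) → ∑ i, h i * q i = 0 → h = 0

lemma NoRel.ne {m H : ℕ} (hH : 1 ≤ H) {q : Fin m → ℤ} (hq : NoRel H q) (i : Fin m) : q i ≠ 0 := by
  classical
  intro h0
  have h1 := hq (fun j => if j = i then 1 else 0) (fun j => by
    split_ifs
    · rw [abs_one]; exact_mod_cast hH
    · simp) (by simp [h0])
  have h2 := congrFun h1 i
  simp at h2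

/-- **Riesz products** -/
theorem riesz {m H : ℕ} (hH : 1 ≤ H) (f : Fin m → ℝ → ℝ) (hf : ∀ i, TQ H (f i)) (q : Fin m → ℤ)
    (hq : NoRel H q) :
    ∫ x, ∏ i, f i (q i * x) ∂Leb = ∏ i, ∫ x, f i (q i * x) ∂Leb := by
  classical
  choose c hc using hf
  have key : ((∫ x, ∏ i, f i (q i * x) ∂Leb : ℝ) : ℂ) = ∏ i, c i 0 := by
    rw [← integral_complex_ofReal]
    have h1 : (fun x : ℝ => ((∏ i, f i (q i * x) : ℝ) : ℂ)) = fun x =>
        ∑ h ∈ Fintype.piFinset (fun _ : Fin m => Finset.Icc (-(H : ℤ)) H),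
          (∏ i, c i (h i)) * e ((∑ i, h i * q i : ℤ) * x) := by
      funext x
      push_cast
      simp only [hc]
      rw [prod_univ_sum]
      refine sum_congr rfl fun h _ => ?_
      rw [prod_mul_distrib, ← e_sum]
      congr 2
      rw [sum_mul]
      exact sum_congr rfl fun i _ => by ring
    rw [h1, integral_finsetSum]
    · have h2 : ∀ h ∈ Fintype.piFinset (fun _ : Fin m => Finset.Icc (-(H : ℤ)) H),
          ∫ x, (∏ i, c i (h i)) * e ((∑ i, h i * q i : ℤ) * x) ∂Leb =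
          (∏ i, c i (h i)) * hat Leb (∑ i, h i * q i) := by
        intro h _
        unfold hat
        rw [integral_const_mul]
      rw [sum_congr rfl h2, Finset.sum_eq_single (0 : Fin m → ℤ)]
      · simp only [Pi.zero_apply, zero_mul, sum_const_zero]
        rw [hat_zero, mul_one]
      · intro h hh hne
        rw [hat_Leb, mul_zero]
        intro h3
        apply hne
        refine hq h (fun i => ?_) h3
        have := Finset.mem_Icc.1 (Fintype.mem_piFinset.1 hh i)
        rw [abs_le]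
        exact this
      · intro h
        exfalso
        apply h
        rw [Fintype.mem_piFinset]
        intro i
        rw [Finset.mem_Icc]
        simp
    · intro h _
      exact (integrable_e Leb _).const_mul _
  have h3 : ((∏ i, ∫ x, f i (q i * x) ∂Leb : ℝ) : ℂ) = ∏ i, c i 0 := by
    push_cast
    exact prod_congr rfl fun i _ => int_TQ (hc i) (hq.ne hH i)
  exact_mod_cast key.trans h3.symm

/-! ### the majorant -/

/-- the indicator function of a union of intervals -/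
noncomputable def gi (M : ℕ) (V : Finset ℕ) (x : ℝ) : ℝ :=
  ∑ c ∈ V, ind ((c : ℝ) / 6 ^ M) (((c : ℝ) + 1) / 6 ^ M) x

lemma gi_nonneg (M : ℕ) (V : Finset ℕ) (x : ℝ) : 0 ≤ gi M V x := by
  unfold gi
  exact sum_nonneg fun _ _ => ind_nonneg _ _ _

lemma gi_val (M : ℕ) (V : Finset ℕ) (x : ℝ) :
    gi M V x = if ⌊(6 : ℝ) ^ M * Int.fract x⌋₊ ∈ V then 1 else 0 := by
  classical
  have h6 : (0 : ℝ) < (6 : ℝ) ^ M := by positivity
  have h1 : ∀ c : ℕ, ind ((c : ℝ) / 6 ^ M) (((c : ℝ) + 1) / 6 ^ M) x =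
      if c = ⌊(6 : ℝ) ^ M * Int.fract x⌋₊ then 1 else 0 := by
    intro c
    unfold ind
    have h2 : (c = ⌊(6 : ℝ) ^ M * Int.fract x⌋₊) ↔ ((c : ℝ) / 6 ^ M ≤ Int.fract x ∧
        Int.fract x < ((c : ℝ) + 1) / 6 ^ M) := by
      rw [eq_comm, Nat.floor_eq_iff (mul_nonneg h6.le (Int.fract_nonneg _)), div_le_iff₀ h6,
        lt_div_iff₀ h6, mul_comm]
    by_cases h : c = ⌊(6 : ℝ) ^ M * Int.fract x⌋₊
    · rw [if_pos h, if_pos (h2.1 h)]
    · rw [if_neg h, if_neg fun h3 => h (h2.2 h3)]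
  unfold gi
  simp only [h1]
  rw [Finset.sum_ite_eq']

lemma count_ends {R : ℕ} (hR : 0 < R) {u v : ℝ} (hu : 0 ≤ u) (huv : u ≤ v) :
    (((range R).filter (fun j : ℕ => u ≤ (j / R : ℝ) ∧ (j / R : ℝ) < v)).card : ℝ) ≤
      R * (v - u) + 1 := by
  have hRR : (0 : ℝ) < R := by exact_mod_cast hR
  have h1 : (range R).filter (fun j : ℕ => u ≤ (j / R : ℝ) ∧ (j / R : ℝ) < v) ⊆
      Finset.Ico ⌈u * R⌉₊ ⌈v * R⌉₊ := by
    intro j hj
    rw [mem_filter] at hj
    rw [Finset.mem_Ico]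
    obtain ⟨_, h2, h3⟩ := hj
    rw [le_div_iff₀ hRR] at h2
    rw [div_lt_iff₀ hRR] at h3
    exact ⟨Nat.ceil_le.2 h2, Nat.lt_ceil.2 h3⟩
  have h2 : u * R ≤ v * R := by gcongr
  have h3 : ⌈u * R⌉₊ ≤ ⌈v * R⌉₊ := Nat.ceil_mono h2
  calc (((range R).filter (fun j : ℕ => u ≤ (j / R : ℝ) ∧ (j / R : ℝ) < v)).card : ℝ) ≤
        ((Finset.Ico ⌈u * R⌉₊ ⌈v * R⌉₊).card : ℝ) := by exact_mod_cast card_le_card h1
    _ = (⌈v * R⌉₊ : ℝ) - ⌈u * R⌉₊ := by rw [Nat.card_Ico, Nat.cast_sub h3]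
    _ ≤ (v * R + 1) - u * R := by
        have h4 := (Nat.ceil_lt_add_one (a := v * R) (by
          have : 0 ≤ v := hu.trans huv
          positivity)).le
        have h5 := Nat.le_ceil (u * R)
        linarith
    _ = R * (v - u) + 1 := by ring

lemma int_F_one {K : ℕ} (hK : 0 < K) {q : ℤ} (hq : q ≠ 0) (u : ℝ) :
    ∫ x, F K (q * x - u) ∂Leb = 1 := by
  have h1 := int_F hK Leb q u 0 (fun h hh _ => by rw [hat_Leb _ (mul_ne_zero hh hq), norm_zero])
  rw [mul_zero] at h1
  have h2 := abs_nonpos_iff.1 h1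
  linarith

/-- **the majorant** -/
theorem majorant (M : ℕ) (V : Finset ℕ) (hV : ∀ c ∈ V, c < 6 ^ M) (ε : ℝ) (hε : 0 < ε) :
    ∃ H : ℕ, 1 ≤ H ∧ ∃ G : ℝ → ℝ, TQ H G ∧ (∀ x, gi M V x ≤ G x) ∧
      ∀ q : ℤ, q ≠ 0 → ∫ x, G (q * x) ∂Leb ≤ (V.card : ℝ) / 6 ^ M + ε := by
  have h6 : (0 : ℝ) < (6 : ℝ) ^ M := by positivity
  -- the parameter
  obtain ⟨K, hK⟩ := exists_nat_gt (((V.card : ℝ) * 12) / ε + 1)
  have hK1 : (1 : ℝ) < K := by
    have : 0 ≤ ((V.card : ℝ) * 12) / ε := by positivity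
    linarith
  have hK0 : 0 < K := by
    have : (0 : ℝ) < K := by linarith
    exact_mod_cast this
  have hKR : (0 : ℝ) < K := by linarith
  set R : ℕ := K ^ 3 with hR
  have hR0 : 0 < R := by positivity
  have hRR : (R : ℝ) = (K : ℝ) ^ 3 := by rw [hR]; push_cast; ring
  have hKR' : K ≤ R := by
    rw [hR]
    calc K = K ^ 1 := (pow_one K).symm
      _ ≤ K ^ 3 := Nat.pow_le_pow_right hK0 (by norm_num)
  refine ⟨R, hR0, fun x => ∑ c ∈ V, (g R ((c : ℝ) / 6 ^ M) (((c : ℝ) + 1) / 6 ^ M) x +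
    w K R ((c : ℝ) / 6 ^ M) (((c : ℝ) + 1) / 6 ^ M) x), ?_, ?_, ?_⟩
  · refine TQ.sum V _ fun c _ => ?_
    refine TQ.add (TQ.of_TP (TP_g R _ _)) ?_
    unfold w
    refine TQ.add (TQ.const _ _) ?_
    refine TQ.const_mul (π ^ 2 / (4 * K)) ?_
    exact TQ.add (TQ.of_TP (TP_F hKR' _)) (TQ.of_TP (TP_F hKR' _))
  · intro x
    unfold gi
    refine sum_le_sum fun c hc => ?_
    have h1 := appr hK0 hR0 (u := (c : ℝ) / 6 ^ M) (v := ((c : ℝ) + 1) / 6 ^ M) (by positivity)
      (by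
        rw [div_le_one h6]
        exact_mod_cast hV c hc) x
    have h2 := abs_le.1 h1
    linarith [h2.2]
  · intro q hq
    have hint : ∀ (K : ℕ) (u : ℝ), Integrable (fun x => F K (q * x - u)) Leb := fun K u =>
      integrable_F K Leb q u
    have hg : ∀ c ∈ V, ∫ x, g R ((c : ℝ) / 6 ^ M) (((c : ℝ) + 1) / 6 ^ M) (q * x) ∂Leb ≤
        1 / 6 ^ M + 1 / R := by
      intro c _
      unfold g
      rw [integral_finsetSum _ fun j _ => (hint R _).const_mul _]
      simp only [integral_const_mul, int_F_one hR0 hq, mul_one, sum_const, nsmul_eq_mul]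
      have h1 := count_ends hR0 (u := (c : ℝ) / 6 ^ M) (v := ((c : ℝ) + 1) / 6 ^ M) (by positivity)
        (by rw [div_le_div_iff_of_pos_right h6]; linarith)
      have hRp : (0 : ℝ) < R := by exact_mod_cast hR0
      calc _ ≤ ((R : ℝ) * (((c : ℝ) + 1) / 6 ^ M - c / 6 ^ M) + 1) * (1 / R) := by gcongr
        _ = 1 / 6 ^ M + 1 / R := by field_simp; ring
    have hw : ∀ c ∈ V, ∫ x, w K R ((c : ℝ) / 6 ^ M) (((c : ℝ) + 1) / 6 ^ M) (q * x) ∂Leb =
        (K : ℝ) ^ 2 / R + π ^ 2 / (2 * K) := by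
      intro c _
      unfold w
      have h1 : Integrable (fun x : ℝ => π ^ 2 / (4 * K) * (F K (q * x - (c : ℝ) / 6 ^ M) +
          F K (q * x - ((c : ℝ) + 1) / 6 ^ M))) Leb := ((hint K _).add (hint K _)).const_mul _
      rw [integral_add (integrable_const _) h1,
        integral_const_mul, integral_add (hint K _) (hint K _), int_F_one hK0 hq, int_F_one hK0 hq]
      simp
      field_simp
      ring
    have hgi : ∀ c ∈ V, Integrable (fun x => g R ((c : ℝ) / 6 ^ M) (((c : ℝ) + 1) / 6 ^ M) (q * x))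
        Leb := by
      intro c _
      unfold g
      exact integrable_finsetSum _ fun j _ => (hint R _).const_mul _
    have hwi : ∀ c ∈ V, Integrable (fun x => w K R ((c : ℝ) / 6 ^ M) (((c : ℝ) + 1) / 6 ^ M) (q * x))
        Leb := by
      intro c _
      unfold w
      exact (integrable_const _).add (((hint K _).add (hint K _)).const_mul _)
    have hgw : ∀ c ∈ V, Integrable (fun x => g R ((c : ℝ) / 6 ^ M) (((c : ℝ) + 1) / 6 ^ M) (q * x) +
        w K R ((c : ℝ) / 6 ^ M) (((c : ℝ) + 1) / 6 ^ M) (q * x)) Leb := fun c hc =>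
      (hgi c hc).add (hwi c hc)
    show ∫ x, ∑ c ∈ V, (g R ((c : ℝ) / 6 ^ M) (((c : ℝ) + 1) / 6 ^ M) (q * x) +
        w K R ((c : ℝ) / 6 ^ M) (((c : ℝ) + 1) / 6 ^ M) (q * x)) ∂Leb ≤ _
    rw [integral_finsetSum _ hgw]
    have h1 : ∀ c ∈ V, ∫ x, (g R ((c : ℝ) / 6 ^ M) (((c : ℝ) + 1) / 6 ^ M) (q * x) +
        w K R ((c : ℝ) / 6 ^ M) (((c : ℝ) + 1) / 6 ^ M) (q * x)) ∂Leb ≤ 1 / 6 ^ M + 12 / K := by
      intro c hc
      rw [integral_add (hgi c hc) (hwi c hc), hw c hc]
      have h2 := hg c hc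
      have h3 : (1 : ℝ) / R ≤ 1 / K := by
        apply one_div_le_one_div_of_le hKR
        exact_mod_cast hKR'
      have h4 : (K : ℝ) ^ 2 / R = 1 / K := by rw [hRR]; field_simp
      have h5 : π ^ 2 / (2 * K) ≤ 10 / K := by
        rw [div_le_div_iff₀ (by positivity) hKR]
        have h6 := Real.pi_lt_d2
        have h7 := Real.pi_pos
        have h8 : π ^ 2 ≤ 10 := by nlinarith
        nlinarith
      have h9 : (12 : ℝ) / K = 1 / K + 1 / K + 10 / K := by ring
      rw [h4, h9]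
      linarith
    refine (sum_le_sum h1).trans ?_
    rw [sum_const, nsmul_eq_mul, mul_add, mul_one_div]
    have h2 : (V.card : ℝ) * (12 / K) ≤ ε := by
      rw [mul_div_assoc', div_le_iff₀ hKR]
      have h3 : ((V.card : ℝ) * 12) / ε ≤ K := by linarith
      rw [div_le_iff₀ hε] at h3
      linarith
    linarith

/-- **the large deviation inequality** -/
theorem ld (M : ℕ) (V : Finset ℕ) (hV : ∀ c ∈ V, c < 6 ^ M) (ε : ℝ) (hε : 0 < ε) (hε1 : ε ≤ 1) :
    ∃ H : ℕ, 1 ≤ H ∧ ∀ (m : ℕ) (q : Fin m → ℤ), NoRel H q →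
      Leb.real {x | m * ((V.card : ℝ) / 6 ^ M + ε) ≤ ∑ i, gi M V (q i * x)} ≤
        exp (-(ε ^ 2 / 16 * m)) := by
  obtain ⟨H, hH, G, hG, hGm, hGi⟩ := majorant M V hV (ε / 2) (by positivity)
  refine ⟨H, hH, fun m q hq => ?_⟩
  have h6 : (0 : ℝ) < (6 : ℝ) ^ M := by positivity
  set f : ℝ := (V.card : ℝ) / 6 ^ M with hf
  have hf0 : 0 ≤ f := by positivity
  have hf1 : f ≤ 1 := by
    rw [hf, div_le_one h6]
    have h1 : V ⊆ range (6 ^ M) := fun c hc => mem_range.2 (hV c hc)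
    have h2 := card_le_card h1
    rw [card_range] at h2
    exact_mod_cast h2
  set s : ℝ := ε / 4 with hs
  have hs0 : 0 < s := by positivity
  have hG0 : ∀ x, 0 ≤ G x := fun x => (gi_nonneg M V x).trans (hGm x)
  -- the exponential moment
  have h1 : ∫ x, ∏ i, (1 + s * G (q i * x)) ∂Leb ≤ (1 + s * (f + ε / 2)) ^ m := by
    have h2 := riesz hH (fun (_ : Fin m) x => 1 + s * G x)
      (fun _ => TQ.add (TQ.const H 1) (hG.const_mul s)) q hq
    rw [h2]
    have hGint : ∀ i, Integrable (fun x => G (q i * x)) Leb := by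
      intro i
      obtain ⟨c, hc⟩ := hG
      have h3 : Integrable (fun x : ℝ => ((G (q i * x) : ℝ) : ℂ)) Leb := by
        simp only [hc]
        refine integrable_finsetSum _ fun h _ => Integrable.const_mul ?_ _
        have := integrable_e Leb ((h : ℝ) * q i)
        refine this.congr (Filter.Eventually.of_forall fun x => ?_)
        simp only
        congr 1
        ring
      have h4 := h3.re
      refine h4.congr (Filter.Eventually.of_forall fun x => ?_)
      simp
    calc ∏ i, ∫ x, (1 + s * G (q i * x)) ∂Leb ≤ ∏ _i : Fin m, (1 + s * (f + ε / 2)) := by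
          refine prod_le_prod (fun i _ => ?_) fun i _ => ?_
          · refine integral_nonneg fun x => ?_
            have := hG0 (q i * x)
            positivity
          · rw [integral_add (integrable_const _) ((hGint i).const_mul _), integral_const_mul]
            have h3 := hGi (q i) (hq.ne hH i)
            have h4 : ∫ _ : ℝ, (1 : ℝ) ∂Leb = 1 := by simp
            rw [h4]
            have := mul_le_mul_of_nonneg_left h3 hs0.le
            linarith
      _ = (1 + s * (f + ε / 2)) ^ m := by rw [prod_const, card_univ, Fintype.card_fin]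
  -- Markov
  set a : ℝ := (m : ℝ) * (f + ε) with ha
  have hcont : Continuous (fun x : ℝ => ∏ i, (1 + s * G (q i * x))) := by
    have hGc : Continuous G := by
      obtain ⟨c, hc⟩ := hG
      have h3 : Continuous (fun x => (G x : ℂ)) := by
        have : (fun x => (G x : ℂ)) = fun x => ∑ h ∈ Finset.Icc (-(H : ℤ)) H, c h * e (h * x) :=
          funext hc
        rw [this]
        refine continuous_finsetSum _ fun i _ => continuous_const.mul (continuous_e.comp ?_)
        fun_prop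
      have h4 : G = fun x => (G x : ℂ).re := by funext x; simp
      rw [h4]
      exact Complex.continuous_re.comp h3
    refine continuous_finsetProd _ fun i _ => ?_
    exact continuous_const.add (continuous_const.mul (hGc.comp (by fun_prop)))
  have h2 : {x | a ≤ ∑ i, gi M V (q i * x)} ⊆ {x | (1 + s) ^ a ≤ ∏ i, (1 + s * G (q i * x))} := by
    intro x hx
    simp only [Set.mem_ofPred_eq] at hx ⊢
    have h3 : ∏ i, (1 + s) ^ (gi M V (q i * x)) ≤ ∏ i, (1 + s * G (q i * x)) := by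
      refine prod_le_prod (fun i _ => by positivity) fun i _ => ?_
      have h4 := hGm (q i * x)
      have h5 := gi_val M V (q i * x)
      by_cases h6 : ⌊(6 : ℝ) ^ M * Int.fract ((q i : ℝ) * x)⌋₊ ∈ V
      · rw [if_pos h6] at h5
        rw [h5, rpow_one]
        rw [h5] at h4
        nlinarith
      · rw [if_neg h6] at h5
        rw [h5, rpow_zero]
        have := hG0 (q i * x)
        nlinarith
    refine le_trans ?_ h3
    rw [← Real.rpow_sum_of_pos (by positivity)]
    exact Real.rpow_le_rpow_of_exponent_le (by linarith) hx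
  have hpos : 0 < (1 + s) ^ a := by positivity
  have hbound : ∃ Cb : ℝ, ∀ x, ‖G x‖ ≤ Cb := by
    obtain ⟨c, hc⟩ := hG
    refine ⟨∑ h ∈ Finset.Icc (-(H : ℤ)) H, ‖c h‖, fun x => ?_⟩
    have h3 : ‖(G x : ℂ)‖ ≤ ∑ h ∈ Finset.Icc (-(H : ℤ)) H, ‖c h‖ := by
      rw [hc x]
      refine (norm_sum_le _ _).trans (sum_le_sum fun h _ => ?_)
      rw [norm_mul, norm_e, mul_one]
    rwa [Complex.norm_real] at h3
  have hint : Integrable (fun x : ℝ => ∏ i, (1 + s * G (q i * x))) Leb := by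
    obtain ⟨Cb, hCb⟩ := hbound
    refine Integrable.of_bound (C := ∏ _i : Fin m, (1 + s * Cb)) hcont.aestronglyMeasurable
      (Filter.Eventually.of_forall fun x => ?_)
    rw [norm_prod]
    refine prod_le_prod (fun i _ => norm_nonneg _) fun i _ => ?_
    refine (norm_add_le _ _).trans ?_
    rw [norm_one, norm_mul, Real.norm_eq_abs s, abs_of_pos hs0]
    have := hCb (q i * x)
    have := mul_le_mul_of_nonneg_left this hs0.le
    linarith
  have h3 : (1 + s) ^ a * Leb.real {x | (1 + s) ^ a ≤ ∏ i, (1 + s * G (q i * x))} ≤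
      ∫ x, ∏ i, (1 + s * G (q i * x)) ∂Leb := by
    refine mul_meas_ge_le_integral_of_nonneg (Filter.Eventually.of_forall fun x => ?_) hint _
    refine prod_nonneg fun i _ => ?_
    have := hG0 (q i * x)
    positivity
  have h4 : Leb.real {x | a ≤ ∑ i, gi M V (q i * x)} ≤
      Leb.real {x | (1 + s) ^ a ≤ ∏ i, (1 + s * G (q i * x))} := measureReal_mono h2
  have h5 : (1 + s) ^ a * Leb.real {x | a ≤ ∑ i, gi M V (q i * x)} ≤ (1 + s * (f + ε / 2)) ^ m :=
    (mul_le_mul_of_nonneg_left h4 hpos.le).trans (h3.trans h1)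
  have h7 : Leb.real {x | a ≤ ∑ i, gi M V (q i * x)} ≤ (1 + s * (f + ε / 2)) ^ m / (1 + s) ^ a := by
    rw [le_div_iff₀ hpos, mul_comm]
    exact h5
  refine h7.trans ?_
  -- the exponents
  have h8 : (1 + s * (f + ε / 2)) ^ m ≤ exp (m * (s * (f + ε / 2))) := by
    rw [mul_comm (m : ℝ), Real.exp_mul, Real.rpow_natCast]
    gcongr
    have := Real.add_one_le_exp (s * (f + ε / 2))
    linarith
  have h9 : exp (a * (s - s ^ 2 / 2)) ≤ (1 + s) ^ a := by
    rw [Real.rpow_def_of_pos (by linarith), mul_comm (log (1 + s))]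
    apply exp_le_exp.2
    have ha0 : 0 ≤ a := by positivity
    refine mul_le_mul_of_nonneg_left ?_ ha0
    -- log (1 + s) ≥ s - s^2/2
    have h10 := Real.le_log_one_add_of_nonneg hs0.le
    refine le_trans ?_ h10
    rw [le_div_iff₀ (by positivity)]
    nlinarith [hs0, sq_nonneg s, mul_pos hs0 hs0, mul_pos (mul_pos hs0 hs0) hs0]
  rw [div_le_iff₀ hpos]
  refine h8.trans ?_
  calc exp (m * (s * (f + ε / 2))) ≤ exp (-(ε ^ 2 / 16 * m) + a * (s - s ^ 2 / 2)) := by
        apply exp_le_exp.2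
        rw [ha, hs]
        have hm0 : (0 : ℝ) ≤ m := Nat.cast_nonneg m
        have h11 : (ε / 4) * (f + ε / 2) ≤ -(ε ^ 2 / 16) + (f + ε) * (ε / 4 - (ε / 4) ^ 2 / 2) := by
          have : (f + ε) * ((ε / 4) ^ 2 / 2) ≤ 2 * ((ε / 4) ^ 2 / 2) := by
            gcongr
            linarith
          nlinarith
        have := mul_le_mul_of_nonneg_left h11 hm0
        nlinarith
    _ = exp (-(ε ^ 2 / 16 * m)) * exp (a * (s - s ^ 2 / 2)) := by rw [exp_add]
    _ ≤ exp (-(ε ^ 2 / 16 * m)) * (1 + s) ^ a := by gcongr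

end Pool.Agent.Y933.KH
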